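import Pool.Agent.R311.RES.C7

/-!
# Weighted resonators on a coset, with a bound for the whole sum
-/

set_option autoImplicit false

namespace Pool.Agent.V8H35.EC
open Finset
open scoped Classical
open Pool.Agent.R311.RES

variable {q : ℕ} [Fact q.Prime] {α : Type*}

lemma coset_first_w' (H : Subgroup (DirichletCharacter ℂ q)) (χ₀ : DirichletCharacter ℂ q)
    (I : Finset α) (w : α → ℝ) (π : α → (ZMod q)ˣ)
    (G : DirichletCharacter ℂ q → ℂ) (c : (ZMod q)ˣ → ℂ)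
    (hG : ∀ χ : DirichletCharacter ℂ q, G χ = ∑ a : (ZMod q)ˣ, χ (a : ZMod q) * c a)
    (T : ℝ) (hT : ‖∑ ψ : H, ((‖R3 I w π (χ₀ * (ψ : DirichletCharacter ℂ q))‖ ^ 2 : ℝ) : ℂ) *
      G (χ₀ * (ψ : DirichletCharacter ℂ q))‖ ≤ (Fintype.card H : ℝ) * T) :
    ‖∑ a : (ZMod q)ˣ, c a * ∑ z ∈ prs H I π a, ((w z.1 * w z.2 : ℝ) : ℂ) *
        χ₀ ((a * π z.1 * (π z.2)⁻¹ : (ZMod q)ˣ) : ZMod q)‖ ≤ T := by
  have h1 : ∑ ψ : H, ((‖R3 I w π (χ₀ * (ψ : DirichletCharacter ℂ q))‖ ^ 2 : ℝ) : ℂ) *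
      G (χ₀ * (ψ : DirichletCharacter ℂ q)) =
      (Fintype.card H : ℂ) * ∑ a : (ZMod q)ˣ, c a * ∑ z ∈ prs H I π a, ((w z.1 * w z.2 : ℝ) : ℂ) *
        χ₀ ((a * π z.1 * (π z.2)⁻¹ : (ZMod q)ˣ) : ZMod q) := by
    have h2 : ∀ ψ : H, ((‖R3 I w π (χ₀ * (ψ : DirichletCharacter ℂ q))‖ ^ 2 : ℝ) : ℂ) *
      G (χ₀ * (ψ : DirichletCharacter ℂ q)) =
      ∑ a : (ZMod q)ˣ, c a * (((‖R3 I w π (χ₀ * (ψ : DirichletCharacter ℂ q))‖ ^ 2 : ℝ) : ℂ) *
        (χ₀ * (ψ : DirichletCharacter ℂ q)) (a : ZMod q)) := by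
      intro ψ
      rw [hG, Finset.mul_sum]
      apply Finset.sum_congr rfl
      intro a _
      ring
    rw [Finset.sum_congr rfl (fun ψ _ => h2 ψ), Finset.sum_comm, Finset.mul_sum]
    apply Finset.sum_congr rfl
    intro a _
    rw [← Finset.mul_sum, coset_moment_w]
    ring
  have h3 := hT
  rw [h1, norm_mul, Complex.norm_natCast] at h3
  have hH : (0 : ℝ) < Fintype.card H := by
    have h6 : 0 < Fintype.card H := Fintype.card_pos
    exact_mod_cast h6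
  exact le_of_mul_le_mul_left h3 hH

theorem coset_w_main' (H : Subgroup (DirichletCharacter ℂ q)) (χ₀ : DirichletCharacter ℂ q)
    (I : Finset α) (w : α → ℝ) (hw : ∀ i ∈ I, 0 ≤ w i) (π : α → (ZMod q)ˣ) (num : α → ℕ)
    (hπ : ∀ i ∈ I, (num i : ZMod q) = (π i : ZMod q))
    (G : DirichletCharacter ℂ q → ℂ) (c : (ZMod q)ˣ → ℂ) (b : (ZMod q)ˣ → ℝ) (η : ℝ)
    (hb : ∀ a, 0 ≤ b a) (hc : ∀ a, ‖c a - (b a : ℂ)‖ ≤ η)
    (hG : ∀ χ : DirichletCharacter ℂ q, G χ = ∑ a : (ZMod q)ˣ, χ (a : ZMod q) * c a)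
    (T : ℝ) (hT : ‖∑ ψ : H, ((‖R3 I w π (χ₀ * (ψ : DirichletCharacter ℂ q))‖ ^ 2 : ℝ) : ℂ) *
      G (χ₀ * (ψ : DirichletCharacter ℂ q))‖ ≤ (Fintype.card H : ℝ) * T) :
    ∑ a : (ZMod q)ˣ, b a * ∑ z ∈ (I ×ˢ I).filter (fun z => (a : ZMod q).val * num z.1 = num z.2),
        w z.1 * w z.2 ≤
      T + η * ((∑ i ∈ I, w i) ^ 2 * (Fintype.card (ann H) : ℝ)) +
      ∑ a : (ZMod q)ˣ, b a * ∑ z ∈ (prs H I π a).filter
        (fun z => ¬ (a : ZMod q).val * num z.1 = num z.2), w z.1 * w z.2 := by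
  have : NeZero q := ⟨(Nat.Prime.pos Fact.out).ne'⟩
  have hww : ∀ a : (ZMod q)ˣ, ∀ z ∈ prs H I π a, 0 ≤ w z.1 * w z.2 := by
    intro a z hz
    rw [prs, mem_filter, mem_product] at hz
    exact mul_nonneg (hw _ hz.1.1) (hw _ hz.1.2)
  have h1 := coset_first_w' H χ₀ I w π G c hG T hT
  set X : (ZMod q)ˣ → ℂ := fun a => ∑ z ∈ prs H I π a, ((w z.1 * w z.2 : ℝ) : ℂ) *
        χ₀ ((a * π z.1 * (π z.2)⁻¹ : (ZMod q)ˣ) : ZMod q) with hX
  have hXn : ∀ a, ‖X a‖ ≤ ∑ z ∈ prs H I π a, w z.1 * w z.2 := by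
    intro a
    refine (norm_sum_le _ _).trans (Finset.sum_le_sum fun z hz => ?_)
    have h0 := hww a z hz
    rw [norm_mul, Complex.norm_real, Real.norm_of_nonneg h0]
    calc w z.1 * w z.2 * _ ≤ w z.1 * w z.2 * 1 :=
          mul_le_mul_of_nonneg_left (DirichletCharacter.norm_le_one χ₀ _) h0
      _ = _ := mul_one _
  have h2 : ‖∑ a : (ZMod q)ˣ, (b a : ℂ) * X a‖ ≤ T +
      η * ((∑ i ∈ I, w i) ^ 2 * (Fintype.card (ann H) : ℝ)) := by
    have e1 : ∑ a : (ZMod q)ˣ, (b a : ℂ) * X a = ∑ a : (ZMod q)ˣ, c a * X a -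
        ∑ a : (ZMod q)ˣ, (c a - (b a : ℂ)) * X a := by
      rw [← Finset.sum_sub_distrib]
      apply Finset.sum_congr rfl
      intro a _
      ring
    rw [e1]
    refine (norm_sub_le _ _).trans (add_le_add h1 ?_)
    rw [← sum_prs_w H I w π, Finset.mul_sum]
    refine (norm_sum_le _ _).trans (Finset.sum_le_sum fun a _ => ?_)
    rw [norm_mul]
    exact mul_le_mul (hc a) (hXn a) (norm_nonneg _) ((norm_nonneg _).trans (hc a))
  have h3 : ∀ a : (ZMod q)ˣ, b a * ∑ z ∈ (I ×ˢ I).filter (fun z => (a : ZMod q).val * num z.1 = num z.2),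
        w z.1 * w z.2 - b a * ∑ z ∈ (prs H I π a).filter
        (fun z => ¬ (a : ZMod q).val * num z.1 = num z.2), w z.1 * w z.2 ≤ ((b a : ℂ) * X a).re := by
    intro a
    rw [Complex.re_ofReal_mul, ← mul_sub]
    apply mul_le_mul_of_nonneg_left _ (hb a)
    have hex : ∀ z ∈ I ×ˢ I, (a : ZMod q).val * num z.1 = num z.2 → a * π z.1 * (π z.2)⁻¹ = 1 := by
      intro z hz h4
      rw [mem_product] at hz
      have h5 := congrArg (Nat.cast : ℕ → ZMod q) h4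
      push_cast at h5
      rw [ZMod.natCast_zmod_val, hπ _ hz.1, hπ _ hz.2] at h5
      have h6 : a * π z.1 = π z.2 := by
        apply Units.ext
        rw [Units.val_mul]
        exact h5
      rw [h6, mul_inv_cancel]
    have e1 : X a = ((∑ z ∈ (I ×ˢ I).filter (fun z => (a : ZMod q).val * num z.1 = num z.2),
        w z.1 * w z.2 : ℝ) : ℂ) + ∑ z ∈ (prs H I π a).filter
        (fun z => ¬ (a : ZMod q).val * num z.1 = num z.2), ((w z.1 * w z.2 : ℝ) : ℂ) *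
        χ₀ ((a * π z.1 * (π z.2)⁻¹ : (ZMod q)ˣ) : ZMod q) := by
      simp only [hX]
      rw [← Finset.sum_filter_add_sum_filter_not (prs H I π a)
        (fun z => (a : ZMod q).val * num z.1 = num z.2)]
      congr 1
      have e2 : (prs H I π a).filter (fun z => (a : ZMod q).val * num z.1 = num z.2) =
          (I ×ˢ I).filter (fun z => (a : ZMod q).val * num z.1 = num z.2) := by
        ext z
        constructor
        · intro hz
          rw [mem_filter, prs, mem_filter] at hz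
          rw [mem_filter]
          exact ⟨hz.1.1, hz.2⟩
        · intro hz
          rw [mem_filter] at hz
          rw [mem_filter, prs, mem_filter]
          refine ⟨⟨hz.1, ?_⟩, hz.2⟩
          rw [hex z hz.1 hz.2]
          exact (ann H).one_mem
      rw [e2, Complex.ofReal_sum]
      apply Finset.sum_congr rfl
      intro z hz
      rw [mem_filter] at hz
      rw [hex z hz.1 hz.2, Units.val_one, map_one, mul_one]
    rw [e1, Complex.add_re, Complex.ofReal_re]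
    have h7 : ‖∑ z ∈ (prs H I π a).filter
        (fun z => ¬ (a : ZMod q).val * num z.1 = num z.2), ((w z.1 * w z.2 : ℝ) : ℂ) *
        χ₀ ((a * π z.1 * (π z.2)⁻¹ : (ZMod q)ˣ) : ZMod q)‖ ≤ ∑ z ∈ (prs H I π a).filter
        (fun z => ¬ (a : ZMod q).val * num z.1 = num z.2), w z.1 * w z.2 := by
      refine (norm_sum_le _ _).trans (Finset.sum_le_sum fun z hz => ?_)
      have h0 := hww a z (mem_of_mem_filter z hz)
      rw [norm_mul, Complex.norm_real, Real.norm_of_nonneg h0]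
      calc w z.1 * w z.2 * _ ≤ w z.1 * w z.2 * 1 :=
            mul_le_mul_of_nonneg_left (DirichletCharacter.norm_le_one χ₀ _) h0
        _ = _ := mul_one _
    have h8 := (abs_le.1 ((Complex.abs_re_le_norm _).trans h7)).1
    linarith
  have h4 := Finset.sum_le_sum (s := univ) (fun a _ => h3 a)
  rw [← Complex.re_sum, Finset.sum_sub_distrib] at h4
  have h5 := h4.trans ((Complex.re_le_norm _).trans h2)
  linarith


end Pool.Agent.V8H35.EC
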