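import Pool.Agent.V8H35.EC.R0

/-!
# The mean square of `∑_a χ(a) c_a` over a coset, and its use for the number of the large values
-/

set_option autoImplicit false

namespace Pool.Agent.V8H35.EC
open Finset
open scoped Classical
open Pool.Agent.R311.RES

variable {q : ℕ} [Fact q.Prime]

lemma parseval (G : DirichletCharacter ℂ q → ℂ) (c : (ZMod q)ˣ → ℂ)
    (hG : ∀ χ : DirichletCharacter ℂ q, G χ = ∑ a : (ZMod q)ˣ, χ (a : ZMod q) * c a) :
    ∑ χ : DirichletCharacter ℂ q, ‖G χ‖ ^ 2 = (q - 1) * ∑ a : (ZMod q)ˣ, ‖c a‖ ^ 2 := by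
  have hq : q.Prime := Fact.out
  have : NeZero q := ⟨hq.pos.ne'⟩
  have h1 : ∀ χ : DirichletCharacter ℂ q, ((‖G χ‖ ^ 2 : ℝ) : ℂ) =
      ∑ a : (ZMod q)ˣ, ∑ b : (ZMod q)ˣ, c a * (starRingEnd ℂ) (c b) *
        (χ ((b : ZMod q)⁻¹) * χ (a : ZMod q)) := by
    intro χ
    rw [← Complex.normSq_eq_norm_sq, ← Complex.mul_conj, hG, map_sum, Finset.sum_mul_sum]
    apply Finset.sum_congr rfl
    intro a _
    apply Finset.sum_congr rfl
    intro b _
    have e : ((b : ZMod q))⁻¹ = ((b⁻¹ : (ZMod q)ˣ) : ZMod q) := (ZMod.inv_coe_unit b)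
    rw [map_mul, e, chi_inv]
    ring
  have h2 : ((∑ χ : DirichletCharacter ℂ q, ‖G χ‖ ^ 2 : ℝ) : ℂ) =
      (((q - 1) * ∑ a : (ZMod q)ˣ, ‖c a‖ ^ 2 : ℝ) : ℂ) := by
    rw [Complex.ofReal_sum, Finset.sum_congr rfl (fun χ _ => h1 χ), Finset.sum_comm]
    have h3 : ∀ a : (ZMod q)ˣ, ∑ χ : DirichletCharacter ℂ q, ∑ b : (ZMod q)ˣ,
        c a * (starRingEnd ℂ) (c b) * (χ ((b : ZMod q)⁻¹) * χ (a : ZMod q)) =
        ((q : ℂ) - 1) * ((‖c a‖ ^ 2 : ℝ) : ℂ) := by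
      intro a
      rw [Finset.sum_comm]
      have h4 : ∀ b : (ZMod q)ˣ, ∑ χ : DirichletCharacter ℂ q,
          c a * (starRingEnd ℂ) (c b) * (χ ((b : ZMod q)⁻¹) * χ (a : ZMod q)) =
          if b = a then ((q : ℂ) - 1) * (c a * (starRingEnd ℂ) (c b)) else 0 := by
        intro b
        rw [← Finset.mul_sum, DirichletCharacter.sum_char_inv_mul_char_eq ℂ b.isUnit (a : ZMod q)]
        by_cases hab : b = a
        · rw [if_pos hab, if_pos (by rw [hab]), Nat.totient_prime hq, Nat.cast_sub hq.one_lt.le]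
          push_cast
          ring
        · rw [if_neg hab, if_neg (fun h => hab (Units.ext h)), mul_zero]
      rw [Finset.sum_congr rfl (fun b _ => h4 b), Finset.sum_ite_eq' univ a]
      rw [if_pos (mem_univ _), Complex.mul_conj, Complex.normSq_eq_norm_sq]
    rw [Finset.sum_congr rfl (fun a _ => h3 a), ← Finset.mul_sum]
    push_cast
    rfl
  exact_mod_cast h2

lemma coset_sq_le (H : Subgroup (DirichletCharacter ℂ q)) (χ₀ : DirichletCharacter ℂ q)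
    (G : DirichletCharacter ℂ q → ℂ) (c : (ZMod q)ˣ → ℂ)
    (hG : ∀ χ : DirichletCharacter ℂ q, G χ = ∑ a : (ZMod q)ˣ, χ (a : ZMod q) * c a) :
    ∑ ψ : H, ‖G (χ₀ * (ψ : DirichletCharacter ℂ q))‖ ^ 2 ≤ (q - 1) * ∑ a : (ZMod q)ˣ, ‖c a‖ ^ 2 := by
  rw [← parseval G c hG]
  have hinj : Set.InjOn (fun ψ : H => χ₀ * (ψ : DirichletCharacter ℂ q)) (univ : Finset H) := by
    intro ψ _ ψ' _ h
    exact Subtype.ext (mul_left_cancel h)
  rw [← Finset.sum_image (f := fun χ => ‖G χ‖ ^ 2) hinj]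
  exact Finset.sum_le_sum_of_subset_of_nonneg (subset_univ _) (fun χ _ _ => sq_nonneg _)

lemma sum_inv_val : ∑ a : (ZMod q)ˣ, (((a : ZMod q).val : ℝ))⁻¹ ≤ 1 + Real.log q := by
  have hq : q.Prime := Fact.out
  have : NeZero q := ⟨hq.pos.ne'⟩
  have hinj : Set.InjOn (fun a : (ZMod q)ˣ => (a : ZMod q).val) (univ : Finset (ZMod q)ˣ) := by
    intro a _ b _ h
    exact Units.ext (ZMod.val_injective q h)
  rw [← Finset.sum_image (f := fun n : ℕ => ((n : ℝ))⁻¹) hinj]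
  have hsub : (univ : Finset (ZMod q)ˣ).image (fun a : (ZMod q)ˣ => (a : ZMod q).val) ⊆ Icc 1 q := by
    intro n hn
    rw [mem_image] at hn
    obtain ⟨a, -, rfl⟩ := hn
    rw [mem_Icc]
    exact ⟨val_pos a, (ZMod.val_lt _).le⟩
  refine (Finset.sum_le_sum_of_subset_of_nonneg hsub (fun n _ _ => by positivity)).trans ?_
  have h2 : ∑ n ∈ Icc 1 q, ((n : ℝ))⁻¹ = (harmonic q : ℝ) := by
    rw [harmonic_eq_sum_Icc]
    push_cast
    rfl
  rw [h2]
  exact harmonic_le_one_add_log q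

/-- the bound for the mean square -/
lemma sum_c_sq (B : Finset ℕ) (c : (ZMod q)ˣ → ℂ)
    (hc : ∀ a : (ZMod q)ˣ, ‖c a - (bw B (a : ZMod q).val : ℂ)‖ ≤
        (4 * 2 ^ B.card - 1) * (q : ℝ) ^ (-(1 / 2 : ℝ))) :
    ∑ a : (ZMod q)ˣ, ‖c a‖ ^ 2 ≤ 2 * (1 + Real.log q) + 32 * 4 ^ B.card := by
  have hq : q.Prime := Fact.out
  have : NeZero q := ⟨hq.pos.ne'⟩
  have hq0 : (0 : ℝ) < q := by exact_mod_cast hq.pos
  have h1 : ∀ a : (ZMod q)ˣ, ‖c a‖ ^ 2 ≤ 2 * (((a : ZMod q).val : ℝ))⁻¹ + 32 * 4 ^ B.card / q := by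
    intro a
    have hv : (0 : ℝ) < (a : ZMod q).val := by exact_mod_cast val_pos a
    set u : ℝ := ((a : ZMod q).val : ℝ) ^ (-(1 / 2 : ℝ)) with hu
    set v : ℝ := 4 * 2 ^ B.card * (q : ℝ) ^ (-(1 / 2 : ℝ)) with hvd
    have hu0 : 0 ≤ u := by positivity
    have hv0 : 0 ≤ v := by positivity
    have hu2 : u ^ 2 = (((a : ZMod q).val : ℝ))⁻¹ := by
      rw [hu, ← Real.rpow_natCast, ← Real.rpow_mul hv.le]
      norm_num
      rw [Real.rpow_neg_one]
    have hv2 : v ^ 2 = 16 * 4 ^ B.card / q := by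
      rw [hvd, mul_pow, mul_pow, ← Real.rpow_natCast ((q : ℝ) ^ (-(1 / 2 : ℝ))) 2,
        ← Real.rpow_mul hq0.le]
      have e1 : (-(1 / 2 : ℝ)) * ((2 : ℕ) : ℝ) = -1 := by norm_num
      rw [e1, Real.rpow_neg_one, ← pow_mul, mul_comm B.card 2, pow_mul]
      norm_num
      ring
    have h2 : ‖c a‖ ≤ u + v := by
      have e : c a = (c a - (bw B (a : ZMod q).val : ℂ)) + (bw B (a : ZMod q).val : ℂ) := by ring
      rw [e]
      refine (norm_add_le _ _).trans ?_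
      rw [Complex.norm_real, Real.norm_of_nonneg (bw_nonneg _ _), add_comm]
      apply add_le_add (bw_le _ _)
      refine (hc a).trans ?_
      rw [hvd]
      apply mul_le_mul_of_nonneg_right _ (by positivity)
      linarith
    have h3 : ‖c a‖ ^ 2 ≤ (u + v) ^ 2 := pow_le_pow_left₀ (norm_nonneg _) h2 2
    have h4 : (u + v) ^ 2 ≤ 2 * u ^ 2 + 2 * v ^ 2 := by nlinarith [sq_nonneg (u - v)]
    rw [hu2, hv2] at h4
    refine h3.trans (h4.trans (le_of_eq ?_))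
    ring
  refine (Finset.sum_le_sum fun a _ => h1 a).trans ?_
  rw [Finset.sum_add_distrib, ← Finset.mul_sum, Finset.sum_const, card_univ, nsmul_eq_mul]
  have h5 := sum_inv_val (q := q)
  have h6 : (Fintype.card (ZMod q)ˣ : ℝ) ≤ q := by
    rw [ZMod.card_units_eq_totient]
    exact_mod_cast Nat.totient_le q
  have h7 : (Fintype.card (ZMod q)ˣ : ℝ) * (32 * 4 ^ B.card / q) ≤ 32 * 4 ^ B.card := by
    calc (Fintype.card (ZMod q)ˣ : ℝ) * (32 * 4 ^ B.card / q) ≤ q * (32 * 4 ^ B.card / q) :=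
          mul_le_mul_of_nonneg_right h6 (by positivity)
      _ = _ := by field_simp
  linarith

/-- the bound for the weighted sum by a bound `V` for most of the values, and by the mean square for the
other values -/
lemma weighted_le {α : Type*} (H : Subgroup (DirichletCharacter ℂ q)) (χ₀ : DirichletCharacter ℂ q)
    (I : Finset α) (w : α → ℝ) (hw : ∀ i ∈ I, 0 ≤ w i) (π : α → (ZMod q)ˣ)
    (G : DirichletCharacter ℂ q → ℂ) (A : Finset H) (V S E2 : ℝ) (hV0 : 0 ≤ V)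
    (hV : ∀ ψ : H, ψ ∉ A → ‖G (χ₀ * (ψ : DirichletCharacter ℂ q))‖ ≤ V)
    (hS : ∑ ψ : H, ‖G (χ₀ * (ψ : DirichletCharacter ℂ q))‖ ^ 2 ≤ S)
    (hE2 : ∑ z ∈ prs H I π 1, w z.1 * w z.2 ≤ E2) :
    ‖∑ ψ : H, ((‖R3 I w π (χ₀ * (ψ : DirichletCharacter ℂ q))‖ ^ 2 : ℝ) : ℂ) *
      G (χ₀ * (ψ : DirichletCharacter ℂ q))‖ ≤
      (Fintype.card H : ℝ) * (V * E2) + (∑ i ∈ I, w i) ^ 2 * Real.sqrt (A.card * S) := by
  refine (norm_sum_le _ _).trans ?_
  have hR : ∀ ψ : H, ‖R3 I w π (χ₀ * (ψ : DirichletCharacter ℂ q))‖ ^ 2 ≤ (∑ i ∈ I, w i) ^ 2 := by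
    intro ψ
    apply pow_le_pow_left₀ (norm_nonneg _)
    unfold R3
    refine (norm_sum_le _ _).trans (Finset.sum_le_sum fun i hi => ?_)
    rw [norm_mul, Complex.norm_real, Real.norm_of_nonneg (hw i hi)]
    calc w i * _ ≤ w i * 1 :=
          mul_le_mul_of_nonneg_left (DirichletCharacter.norm_le_one _ _) (hw i hi)
      _ = _ := mul_one _
  rw [← Finset.sum_filter_add_sum_filter_not univ (fun ψ : H => ψ ∈ A), add_comm]
  apply add_le_add
  · calc ∑ ψ ∈ univ.filter (fun ψ : H => ψ ∉ A),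
          ‖((‖R3 I w π (χ₀ * (ψ : DirichletCharacter ℂ q))‖ ^ 2 : ℝ) : ℂ) *
            G (χ₀ * (ψ : DirichletCharacter ℂ q))‖ ≤
        ∑ ψ ∈ univ.filter (fun ψ : H => ψ ∉ A),
          V * ‖R3 I w π (χ₀ * (ψ : DirichletCharacter ℂ q))‖ ^ 2 := by
          apply Finset.sum_le_sum
          intro ψ hψ
          rw [mem_filter] at hψ
          rw [norm_mul, Complex.norm_real, Real.norm_of_nonneg (by positivity), mul_comm]
          exact mul_le_mul_of_nonneg_right (hV ψ hψ.2) (by positivity)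
      _ ≤ ∑ ψ : H, V * ‖R3 I w π (χ₀ * (ψ : DirichletCharacter ℂ q))‖ ^ 2 :=
          Finset.sum_le_sum_of_subset_of_nonneg (filter_subset _ _)
            (fun ψ _ _ => mul_nonneg hV0 (by positivity))
      _ = V * ∑ ψ : H, ‖R3 I w π (χ₀ * (ψ : DirichletCharacter ℂ q))‖ ^ 2 := (Finset.mul_sum _ _ _).symm
      _ ≤ V * ((Fintype.card H : ℝ) * E2) := by
          apply mul_le_mul_of_nonneg_left _ hV0
          exact (coset_second_w H χ₀ I w hw π).trans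
            (mul_le_mul_of_nonneg_left hE2 (Nat.cast_nonneg _))
      _ = _ := by ring
  · have e : univ.filter (fun ψ : H => ψ ∈ A) = A := by
      ext ψ; simp
    rw [e]
    calc ∑ ψ ∈ A, ‖((‖R3 I w π (χ₀ * (ψ : DirichletCharacter ℂ q))‖ ^ 2 : ℝ) : ℂ) *
            G (χ₀ * (ψ : DirichletCharacter ℂ q))‖ ≤
        ∑ ψ ∈ A, (∑ i ∈ I, w i) ^ 2 * ‖G (χ₀ * (ψ : DirichletCharacter ℂ q))‖ := by
          apply Finset.sum_le_sum
          intro ψ _
          rw [norm_mul, Complex.norm_real, Real.norm_of_nonneg (by positivity)]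
          exact mul_le_mul_of_nonneg_right (hR ψ) (norm_nonneg _)
      _ = (∑ i ∈ I, w i) ^ 2 * ∑ ψ ∈ A, ‖G (χ₀ * (ψ : DirichletCharacter ℂ q))‖ :=
          (Finset.mul_sum _ _ _).symm
      _ ≤ _ := by
          apply mul_le_mul_of_nonneg_left _ (sq_nonneg _)
          apply Real.le_sqrt_of_sq_le
          refine sq_sum_le_card_mul_sum_sq.trans ?_
          apply mul_le_mul_of_nonneg_left _ (Nat.cast_nonneg _)
          refine le_trans ?_ hS
          exact Finset.sum_le_sum_of_subset_of_nonneg (subset_univ _) (fun ψ _ _ => sq_nonneg _)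

end Pool.Agent.V8H35.EC
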