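import Mathlib

/-!
# Multiplicative relations modulo a small subgroup: sets of relations

`RS q K V W r` is the set of the reduced fractions `s / t` with `s` composed of primes of `V` and `t` of
primes of `W`, with `s t ≤ e^r`, whose classes modulo `q` are in the subgroup `K`.
-/

set_option autoImplicit false

namespace Pool.Agent.V8H35.EC

open Finset
open scoped Classical

variable {q : ℕ} [Fact q.Prime]

/-- the size of a fraction -/
noncomputable def sz (f : ℕ × ℕ) : ℝ := Real.log ((f.1 * f.2 : ℕ) : ℝ)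

/-- the condition -/
def IsR (q : ℕ) [Fact q.Prime] (K : Subgroup (ZMod q)ˣ) (V W : Finset ℕ) (r : ℝ) (f : ℕ × ℕ) : Prop :=
  0 < f.1 ∧ 0 < f.2 ∧ Nat.Coprime f.1 f.2 ∧ f.1.primeFactors ⊆ V ∧ f.2.primeFactors ⊆ W ∧
    (∃ k ∈ K, (f.1 : ZMod q) = (k : ZMod q) * f.2) ∧ sz f ≤ r

/-- the set of the relations -/
noncomputable def RS (q : ℕ) [Fact q.Prime] (K : Subgroup (ZMod q)ˣ) (V W : Finset ℕ) (r : ℝ) :
    Finset (ℕ × ℕ) := (Icc 1 q ×ˢ Icc 1 q).filter (fun f => IsR q K V W r f)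

lemma sz_mul {f g : ℕ × ℕ} (hf : 0 < f.1 * f.2) (hg : 0 < g.1 * g.2) :
    sz (f.1 * g.1, f.2 * g.2) = sz f + sz g := by
  unfold sz
  have e : f.1 * g.1 * (f.2 * g.2) = (f.1 * f.2) * (g.1 * g.2) := by ring
  simp only
  rw [e, Nat.cast_mul, Real.log_mul]
  · exact_mod_cast hf.ne'
  · exact_mod_cast hg.ne'

lemma mem_RS {K : Subgroup (ZMod q)ˣ} {V W : Finset ℕ} {r : ℝ} (hr : r ≤ Real.log q) {f : ℕ × ℕ} :
    f ∈ RS q K V W r ↔ IsR q K V W r f := by
  rw [RS, mem_filter]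
  refine ⟨fun h => h.2, fun h => ⟨?_, h⟩⟩
  obtain ⟨h1, h2, -, -, -, -, h7⟩ := h
  have hq : (0 : ℝ) < q := by exact_mod_cast (Nat.Prime.pos Fact.out : 0 < q)
  have h3 : (0 : ℝ) < ((f.1 * f.2 : ℕ) : ℝ) := by exact_mod_cast Nat.mul_pos h1 h2
  have h4 : ((f.1 * f.2 : ℕ) : ℝ) ≤ q := (Real.log_le_log_iff h3 hq).1 (h7.trans hr)
  have h5 : f.1 * f.2 ≤ q := by exact_mod_cast h4
  rw [mem_product, mem_Icc, mem_Icc]
  refine ⟨⟨h1, ?_⟩, h2, ?_⟩
  · exact (Nat.le_mul_of_pos_right _ h2).trans h5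
  · exact (Nat.le_mul_of_pos_left _ h1).trans h5

lemma one_mem {K : Subgroup (ZMod q)ˣ} {V W : Finset ℕ} {r : ℝ} (hr0 : 0 ≤ r) (hr : r ≤ Real.log q) :
    ((1, 1) : ℕ × ℕ) ∈ RS q K V W r := by
  rw [mem_RS hr]
  refine ⟨one_pos, one_pos, Nat.coprime_one_left 1, by simp, by simp, ⟨1, K.one_mem, by simp⟩, ?_⟩
  simpa [sz] using hr0

lemma card_pos {K : Subgroup (ZMod q)ˣ} {V W : Finset ℕ} {r : ℝ} (hr0 : 0 ≤ r) (hr : r ≤ Real.log q) :
    0 < (RS q K V W r).card := Finset.card_pos.2 ⟨_, one_mem hr0 hr⟩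

lemma one_le_card {K : Subgroup (ZMod q)ˣ} {V W : Finset ℕ} {r : ℝ} (hr0 : 0 ≤ r)
    (hr : r ≤ Real.log q) : (1 : ℝ) ≤ (RS q K V W r).card := by
  exact_mod_cast card_pos hr0 hr

/-- uniqueness of reduced fractions -/
lemma frac_eq {s t s' t' : ℕ} (h1 : s * t' < q) (h2 : s' * t < q) (hc : Nat.Coprime s t)
    (hc' : Nat.Coprime s' t') (hs0 : 0 < s) (k : ZMod q)
    (h : (s : ZMod q) = k * t) (h' : (s' : ZMod q) = k * t') : s = s' ∧ t = t' := by
  have e1 : ((s * t' : ℕ) : ZMod q) = ((s' * t : ℕ) : ZMod q) := by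
    push_cast
    rw [h, h']; ring
  have e2 : s * t' = s' * t := by
    have := congrArg ZMod.val e1
    rwa [ZMod.val_natCast_of_lt h1, ZMod.val_natCast_of_lt h2] at this
  have d1 : s ∣ s' := Nat.Coprime.dvd_of_dvd_mul_right hc ⟨t', e2.symm⟩
  have d2 : s' ∣ s := Nat.Coprime.dvd_of_dvd_mul_right hc' ⟨t, e2⟩
  have h3 : s = s' := Nat.dvd_antisymm d1 d2
  refine ⟨h3, ?_⟩
  rw [← h3] at e2
  exact (Nat.eq_of_mul_eq_mul_left hs0 e2).symm

lemma card_RS_le (K : Subgroup (ZMod q)ˣ) (V W : Finset ℕ) {r : ℝ} (hr : 2 * r < Real.log q)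
    (hr0 : 0 ≤ r) : (RS q K V W r).card ≤ Fintype.card K := by
  have hq : (0 : ℝ) < q := by exact_mod_cast (Nat.Prime.pos Fact.out : 0 < q)
  have hrq : r ≤ Real.log q := by linarith
  set kk : ℕ × ℕ → (ZMod q)ˣ := fun f =>
    if h : ∃ k ∈ K, (f.1 : ZMod q) = (k : ZMod q) * f.2 then Classical.choose h else 1 with hkk
  have hk : ∀ f ∈ RS q K V W r, kk f ∈ K ∧ (f.1 : ZMod q) = (kk f : ZMod q) * f.2 := by
    intro f hf
    rw [mem_RS hrq] at hf
    have h3 := hf.2.2.2.2.2.1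
    simp only [hkk]
    rw [dif_pos h3]
    exact Classical.choose_spec h3
  have hcard : (univ.filter (fun k : (ZMod q)ˣ => k ∈ K)).card = Fintype.card K :=
    (Fintype.card_subtype _).symm
  rw [← hcard]
  apply Finset.card_le_card_of_injOn kk
  · intro f hf
    rw [mem_coe, mem_filter]
    exact ⟨mem_univ _, (hk f hf).1⟩
  · intro f hf g hg hfg
    have a1 := (hk f hf).2
    have a2 := (hk g hg).2
    rw [← hfg] at a2
    rw [mem_coe, mem_RS hrq] at hf hg
    obtain ⟨b1, b2, b3, -, -, -, b7⟩ := hf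
    obtain ⟨c1, c2, c3, -, -, -, c7⟩ := hg
    have hlt : (f.1 * f.2) * (g.1 * g.2) < q := by
      have h5 : (0 : ℝ) < (((f.1 * f.2) * (g.1 * g.2) : ℕ) : ℝ) := by
        exact_mod_cast Nat.mul_pos (Nat.mul_pos b1 b2) (Nat.mul_pos c1 c2)
      have h6 : Real.log (((f.1 * f.2) * (g.1 * g.2) : ℕ) : ℝ) = sz f + sz g := by
        unfold sz
        rw [Nat.cast_mul, Real.log_mul]
        · exact_mod_cast (Nat.mul_pos b1 b2).ne'
        · exact_mod_cast (Nat.mul_pos c1 c2).ne'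
      have h7 := (Real.log_lt_log_iff h5 hq).1 (by rw [h6]; linarith)
      exact_mod_cast h7
    have l1 : f.1 * g.2 < q := by
      refine lt_of_le_of_lt ?_ hlt
      calc f.1 * g.2 = (f.1 * 1) * (1 * g.2) := by ring
        _ ≤ (f.1 * f.2) * (g.1 * g.2) :=
          Nat.mul_le_mul (Nat.mul_le_mul le_rfl b2) (Nat.mul_le_mul c1 le_rfl)
    have l2 : g.1 * f.2 < q := by
      refine lt_of_le_of_lt ?_ hlt
      calc g.1 * f.2 = (1 * f.2) * (g.1 * 1) := by ring
        _ ≤ (f.1 * f.2) * (g.1 * g.2) :=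
          Nat.mul_le_mul (Nat.mul_le_mul b1 le_rfl) (Nat.mul_le_mul le_rfl c2)
    obtain ⟨e1, e2⟩ := frac_eq l1 l2 b3 c3 b1 _ a1 a2
    exact Prod.ext e1 e2

lemma mul_IsR {K : Subgroup (ZMod q)ˣ} {V W V' W' : Finset ℕ} {r r' : ℝ} {f g : ℕ × ℕ}
    (hf : IsR q K V W r f) (hg : IsR q K V' W' r' g) (h1 : Nat.Coprime f.1 g.2)
    (h2 : Nat.Coprime g.1 f.2) : IsR q K (V ∪ V') (W ∪ W') (r + r') (f.1 * g.1, f.2 * g.2) := by
  obtain ⟨b1, b2, b3, b4, b5, ⟨k, hk, b6⟩, b7⟩ := hf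
  obtain ⟨c1, c2, c3, c4, c5, ⟨k', hk', c6⟩, c7⟩ := hg
  refine ⟨Nat.mul_pos b1 c1, Nat.mul_pos b2 c2, ?_, ?_, ?_, ⟨k * k', K.mul_mem hk hk', ?_⟩, ?_⟩
  · exact Nat.Coprime.mul_left (Nat.Coprime.mul_right b3 h1) (Nat.Coprime.mul_right h2 c3)
  · simp only
    rw [Nat.primeFactors_mul b1.ne' c1.ne']
    exact union_subset_union b4 c4
  · simp only
    rw [Nat.primeFactors_mul b2.ne' c2.ne']
    exact union_subset_union b5 c5
  · push_cast
    rw [b6, c6]
    ring
  · rw [sz_mul (Nat.mul_pos b1 b2) (Nat.mul_pos c1 c2)]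
    linarith

lemma coprime_of_disj {a b : ℕ} {V V' : Finset ℕ} (ha : 0 < a) (hb : 0 < b) (h : Disjoint V V')
    (h1 : a.primeFactors ⊆ V) (h2 : b.primeFactors ⊆ V') : Nat.Coprime a b := by
  rw [← Nat.disjoint_primeFactors ha.ne' hb.ne']
  exact Finset.disjoint_of_subset_left h1 (Finset.disjoint_of_subset_right h2 h)

/-- products of relations with disjoint supports -/
lemma card_mul_le {K : Subgroup (ZMod q)ˣ} {V V' : Finset ℕ} (h : Disjoint V V') {r r' : ℝ}
    (hr0 : 0 ≤ r) (hr0' : 0 ≤ r') (hr : r + r' ≤ Real.log q) :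
    (RS q K V V r).card * (RS q K V' V' r').card ≤ (RS q K (V ∪ V') (V ∪ V') (r + r')).card := by
  rw [← card_product]
  apply Finset.card_le_card_of_injOn (fun z => (z.1.1 * z.2.1, z.1.2 * z.2.2))
  · intro z hz
    rw [mem_coe, mem_product, mem_RS (by linarith), mem_RS (by linarith)] at hz
    rw [mem_coe, mem_RS hr]
    obtain ⟨hf, hg⟩ := hz
    exact mul_IsR hf hg (coprime_of_disj hf.1 hg.2.1 h hf.2.2.2.1 hg.2.2.2.2.1)
      (coprime_of_disj hf.2.1 hg.1 h hf.2.2.2.2.1 hg.2.2.2.1).symm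
  · intro z hz z' hz' he
    rw [mem_coe, mem_product, mem_RS (by linarith), mem_RS (by linarith)] at hz hz'
    simp only [Prod.mk.injEq] at he
    obtain ⟨hf, hg⟩ := hz
    obtain ⟨hf', hg'⟩ := hz'
    have key : ∀ a b a' b' : ℕ, 0 < a → 0 < b → 0 < a' → 0 < b' → a.primeFactors ⊆ V →
        b.primeFactors ⊆ V' → a'.primeFactors ⊆ V → b'.primeFactors ⊆ V' → a * b = a' * b' →
        a = a' ∧ b = b' := by
      intro a b a' b' a0 b0 a0' b0' ha hb ha' hb' hab
      have c1 : Nat.Coprime a b' := coprime_of_disj a0 b0' h ha hb'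
      have c2 : Nat.Coprime a' b := coprime_of_disj a0' b0 h ha' hb
      have d1 : a ∣ a' := c1.dvd_of_dvd_mul_right (hab ▸ Dvd.intro _ rfl)
      have d2 : a' ∣ a := c2.dvd_of_dvd_mul_right (hab.symm ▸ Dvd.intro _ rfl)
      have e1 := Nat.dvd_antisymm d1 d2
      refine ⟨e1, ?_⟩
      rw [e1] at hab
      exact Nat.eq_of_mul_eq_mul_left a0' hab
    obtain ⟨e1, e2⟩ := key _ _ _ _ hf.1 hg.1 hf'.1 hg'.1 hf.2.2.2.1 hg.2.2.2.1 hf'.2.2.2.1
      hg'.2.2.2.1 he.1
    obtain ⟨e3, e4⟩ := key _ _ _ _ hf.2.1 hg.2.1 hf'.2.1 hg'.2.1 hf.2.2.2.2.1 hg.2.2.2.2.1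
      hf'.2.2.2.2.1 hg'.2.2.2.2.1 he.2
    exact Prod.ext (Prod.ext e1 e3) (Prod.ext e2 e4)

/-- colouring the primes: one colour for the numerators and one for the denominators -/
lemma exists_colour (K : Subgroup (ZMod q)ˣ) (V : Finset ℕ) {r : ℝ} (hr : r ≤ Real.log q) (w : ℕ)
    (hw : ∀ f ∈ RS q K V V r, (f.1 * f.2).primeFactors.card ≤ w) :
    ∃ S ⊆ V, (RS q K V V r).card ≤ 2 ^ w * (RS q K S (V \ S) r).card := by
  by_contra hcon
  push Not at hcon
  -- double counting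
  have h1 : ∑ S ∈ V.powerset, (RS q K S (V \ S) r).card =
      ∑ f ∈ RS q K V V r, (V.powerset.filter (fun S => f ∈ RS q K S (V \ S) r)).card := by
    have hsub : ∀ S ∈ V.powerset, RS q K S (V \ S) r ⊆ RS q K V V r := by
      intro S hS f hf
      rw [mem_powerset] at hS
      rw [mem_RS hr] at hf ⊢
      obtain ⟨b1, b2, b3, b4, b5, b6, b7⟩ := hf
      exact ⟨b1, b2, b3, b4.trans hS, b5.trans sdiff_subset, b6, b7⟩
    have h2 : ∀ S ∈ V.powerset, (RS q K S (V \ S) r).card =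
        ∑ f ∈ RS q K V V r, if f ∈ RS q K S (V \ S) r then 1 else 0 := by
      intro S hS
      rw [← Finset.sum_filter, Finset.sum_const, smul_eq_mul, mul_one]
      congr 1
      ext f
      rw [mem_filter]
      exact ⟨fun h => ⟨hsub S hS h, h⟩, fun h => h.2⟩
    rw [Finset.sum_congr rfl h2, Finset.sum_comm]
    apply Finset.sum_congr rfl
    intro f _
    rw [← Finset.sum_filter, Finset.sum_const, smul_eq_mul, mul_one]
  have h3 : ∀ f ∈ RS q K V V r, 2 ^ V.card ≤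
      2 ^ w * (V.powerset.filter (fun S => f ∈ RS q K S (V \ S) r)).card := by
    intro f hf
    have hwf := hw f hf
    rw [mem_RS hr] at hf
    obtain ⟨b1, b2, b3, b4, b5, b6, b7⟩ := hf
    have hpf : (f.1 * f.2).primeFactors = f.1.primeFactors ∪ f.2.primeFactors :=
      Nat.primeFactors_mul b1.ne' b2.ne'
    have hdis : Disjoint f.1.primeFactors f.2.primeFactors := b3.disjoint_primeFactors
    set Q := V \ (f.1 * f.2).primeFactors with hQ
    have hQc : V.card ≤ w + Q.card := by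
      have h5 : V.card - (f.1 * f.2).primeFactors.card ≤ Q.card := Finset.le_card_sdiff _ _
      omega
    have h4 : Q.powerset.card ≤ (V.powerset.filter (fun S => f ∈ RS q K S (V \ S) r)).card := by
      apply Finset.card_le_card_of_injOn (fun S => S ∪ f.1.primeFactors)
      · intro S hS
        rw [mem_coe, mem_powerset, hQ, hpf] at hS
        have hSV : S ⊆ V := hS.trans sdiff_subset
        have hSd : Disjoint S (f.1.primeFactors ∪ f.2.primeFactors) :=
          Finset.disjoint_of_subset_left hS sdiff_disjoint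
        rw [Finset.disjoint_union_right] at hSd
        rw [mem_coe, mem_filter, mem_powerset, mem_RS hr]
        refine ⟨union_subset hSV b4, b1, b2, b3, subset_union_right, ?_, b6, b7⟩
        rw [Finset.subset_sdiff, Finset.disjoint_union_right]
        exact ⟨b5, hSd.2.symm, hdis.symm⟩
      · intro S hS S' hS' he
        rw [mem_coe, mem_powerset, hQ, hpf] at hS hS'
        have hSd : Disjoint S (f.1.primeFactors ∪ f.2.primeFactors) :=
          Finset.disjoint_of_subset_left hS sdiff_disjoint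
        have hSd' : Disjoint S' (f.1.primeFactors ∪ f.2.primeFactors) :=
          Finset.disjoint_of_subset_left hS' sdiff_disjoint
        rw [Finset.disjoint_union_right] at hSd hSd'
        simp only at he
        have e1 : (S ∪ f.1.primeFactors) \ f.1.primeFactors = S := by
          rw [Finset.union_sdiff_right, sdiff_eq_left]
          exact hSd.1
        have e2 : (S' ∪ f.1.primeFactors) \ f.1.primeFactors = S' := by
          rw [Finset.union_sdiff_right, sdiff_eq_left]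
          exact hSd'.1
        rw [← e1, ← e2, he]
    rw [card_powerset] at h4
    calc 2 ^ V.card ≤ 2 ^ (w + Q.card) := Nat.pow_le_pow_right (by norm_num) hQc
      _ = 2 ^ w * 2 ^ Q.card := pow_add _ _ _
      _ ≤ _ := Nat.mul_le_mul_left _ h4
  have h5 : 2 ^ V.card * (RS q K V V r).card ≤ 2 ^ w * ∑ S ∈ V.powerset, (RS q K S (V \ S) r).card := by
    rw [h1, Finset.mul_sum, mul_comm, ← smul_eq_mul, ← Finset.sum_const]
    exact Finset.sum_le_sum h3
  have h6 : 2 ^ w * ∑ S ∈ V.powerset, (RS q K S (V \ S) r).card <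
      2 ^ V.card * (RS q K V V r).card := by
    rw [Finset.mul_sum, ← card_powerset, ← smul_eq_mul (a := V.powerset.card), ← Finset.sum_const]
    apply Finset.sum_lt_sum_of_nonempty ⟨∅, by simp⟩
    intro S hS
    rw [mem_powerset] at hS
    exact hcon S hS
  omega

/-- doubling the size -/
lemma card_sq_le {K : Subgroup (ZMod q)ˣ} {S S' : Finset ℕ} (h : Disjoint S S') {r : ℝ}
    (hr0 : 0 ≤ r) (hr : 2 * r ≤ Real.log q) (Φ : ℕ)
    (hΦ : ∀ v ∈ RS q K S S' (2 * r), (RS q K (v.1 * v.2).primeFactors (v.1 * v.2).primeFactors r).card ≤ Φ) :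
    (RS q K S S' r).card ^ 2 ≤ Φ * (RS q K S S' (2 * r)).card := by
  have hr' : r ≤ Real.log q := by linarith
  set T := RS q K S S' r with hT
  set φ : (ℕ × ℕ) × (ℕ × ℕ) → ℕ × ℕ := fun z => (z.1.1 * z.2.1, z.1.2 * z.2.2) with hφ
  have hmaps : ∀ z ∈ T ×ˢ T, φ z ∈ RS q K S S' (2 * r) := by
    intro z hz
    rw [mem_product, hT, mem_RS hr', mem_RS hr'] at hz
    rw [mem_RS hr]
    obtain ⟨hf, hg⟩ := hz
    have := mul_IsR hf hg (coprime_of_disj hf.1 hg.2.1 h hf.2.2.2.1 hg.2.2.2.2.1)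
      (coprime_of_disj hg.1 hf.2.1 h hg.2.2.2.1 hf.2.2.2.2.1)
    rw [union_idempotent, union_idempotent, ← two_mul] at this
    exact this
  rw [sq, ← card_product]
  apply Finset.card_le_mul_card_image_of_maps_to hmaps
  intro v hv
  refine le_trans ?_ (hΦ v hv)
  apply Finset.card_le_card_of_injOn (fun z => z.1)
  · intro z hz
    rw [mem_coe, mem_filter, mem_product, hT, mem_RS hr', mem_RS hr'] at hz
    obtain ⟨⟨hf, hg⟩, he⟩ := hz
    rw [mem_coe, mem_RS hr']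
    obtain ⟨b1, b2, b3, b4, b5, b6, b7⟩ := hf
    obtain ⟨c1, c2, -⟩ := hg
    have he1 : z.1.1 * z.2.1 = v.1 := congrArg Prod.fst he
    have he2 : z.1.2 * z.2.2 = v.2 := congrArg Prod.snd he
    have hv0 : v.1 * v.2 ≠ 0 := by
      rw [← he1, ← he2]
      positivity
    refine ⟨b1, b2, b3, ?_, ?_, b6, b7⟩
    · apply Nat.primeFactors_mono _ hv0
      rw [← he1]
      exact (Dvd.intro _ rfl).mul_right _
    · apply Nat.primeFactors_mono _ hv0
      rw [← he2]
      exact (Dvd.intro _ rfl).mul_left _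
  · intro z hz z' hz' he
    rw [mem_coe, mem_filter, mem_product, hT, mem_RS hr', mem_RS hr'] at hz hz'
    obtain ⟨⟨hf, hg⟩, h1⟩ := hz
    obtain ⟨⟨hf', hg'⟩, h1'⟩ := hz'
    simp only at he
    have h2 : φ z = φ z' := h1.trans h1'.symm
    simp only [hφ, Prod.mk.injEq] at h2
    rw [he] at h2
    have e1 := Nat.eq_of_mul_eq_mul_left hf'.1 h2.1
    have e2 := Nat.eq_of_mul_eq_mul_left hf'.2.1 h2.2
    exact Prod.ext he (Prod.ext e1 e2)

end Pool.Agent.V8H35.EC
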