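import Pool.Agent.V8H35.EC.R1
import Pool.Agent.R311.RES.C9

/-!
# Multiplicative relations modulo a small subgroup: the entropy argument

After the removal of few primes there are few relations of any size.
-/

set_option autoImplicit false

namespace Pool.Agent.V8H35.EC

open Finset
open scoped Classical
open Pool.Agent.R311.RES (sum_log_le)

variable {q : ℕ} [Fact q.Prime]

/-- the logarithm of the number of the relations -/
noncomputable def lc (q : ℕ) [Fact q.Prime] (K : Subgroup (ZMod q)ˣ) (V W : Finset ℕ) (r : ℝ) : ℝ :=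
  Real.log ((RS q K V W r).card : ℝ)

lemma lc_nonneg {K : Subgroup (ZMod q)ˣ} {V W : Finset ℕ} {r : ℝ} (hr0 : 0 ≤ r)
    (hr : r ≤ Real.log q) : 0 ≤ lc q K V W r := Real.log_nonneg (one_le_card hr0 hr)

lemma lc_le_of_card {K : Subgroup (ZMod q)ˣ} {V W : Finset ℕ} {r E : ℝ} (hr0 : 0 ≤ r)
    (hr : 2 * r < Real.log q) (hK : Real.log (Fintype.card K) ≤ E) : lc q K V W r ≤ E := by
  refine le_trans (Real.log_le_log ?_ ?_) hK
  · have := one_le_card (K := K) (V := V) (W := W) hr0 (show r ≤ Real.log q by linarith)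
    linarith
  · exact_mod_cast card_RS_le K V W hr hr0

/-- `B` carries many relations of small size -/
def Good (q : ℕ) [Fact q.Prime] (K : Subgroup (ZMod q)ˣ) (R c m : ℝ) (B : Finset ℕ) : Prop :=
  ∃ r : ℝ, 0 ≤ r ∧ r ≤ R / 2 ∧ c * B.card ≤ lc q K B B r ∧ m * r ≤ lc q K B B r

theorem exists_good (K : Subgroup (ZMod q)ˣ) (X : Finset ℕ) {R c m E : ℝ} (hR : 0 < R)
    (hRq : 2 * R < Real.log q) (hE : 0 < E) (hK : Real.log (Fintype.card K) ≤ E)
    (hm : m = 2 * E / R) :
    ∃ B ⊆ X, c * B.card ≤ E ∧ ∀ U ⊆ X \ B, ∀ r : ℝ, 0 ≤ r → r ≤ R / 2 →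
      lc q K U U r ≤ max (c * U.card) (m * r) := by
  have hm0 : 0 < m := by rw [hm]; positivity
  have hne : (X.powerset.filter (fun B => Good q K R c m B)).Nonempty := by
    refine ⟨∅, ?_⟩
    rw [mem_filter]
    refine ⟨by simp, 0, le_rfl, by positivity, ?_, ?_⟩
    · rw [card_empty, Nat.cast_zero, mul_zero]
      exact lc_nonneg le_rfl (by linarith)
    · rw [mul_zero]
      exact lc_nonneg le_rfl (by linarith)
  obtain ⟨B, hB, hmax⟩ := Finset.exists_max_image _ (fun B : Finset ℕ => B.card) hne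
  rw [mem_filter, mem_powerset] at hB
  obtain ⟨hBX, rB, r0, r1, r2, r3⟩ := hB
  have hEB : lc q K B B rB ≤ E := lc_le_of_card r0 (by linarith) hK
  refine ⟨B, hBX, r2.trans hEB, fun U hU r hr0 hr1 => ?_⟩
  by_contra hcon
  push Not at hcon
  have h1 := lt_of_le_of_lt (le_max_left _ _) hcon
  have h2 := lt_of_le_of_lt (le_max_right _ _) hcon
  have hdis : Disjoint B U := by
    exact (Finset.disjoint_of_subset_left hU sdiff_disjoint).symm
  have hUX : U ⊆ X := hU.trans sdiff_subset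
  have hUne : U.Nonempty := by
    rw [Finset.nonempty_iff_ne_empty]
    rintro rfl
    have h3 : lc q K ∅ ∅ r = 0 := by
      have h4 : RS q K ∅ ∅ r ⊆ {(1, 1)} := by
        intro f hf
        rw [mem_RS (by linarith)] at hf
        obtain ⟨b1, b2, b3, b4, b5, -⟩ := hf
        rw [subset_empty, Nat.primeFactors_eq_empty] at b4 b5
        rw [mem_singleton]
        exact Prod.ext (by simp only; omega) (by simp only; omega)
      have h5 : RS q K ∅ ∅ r = {(1, 1)} := by
        apply Finset.Subset.antisymm h4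
        rw [singleton_subset_iff]
        exact one_mem hr0 (by linarith)
      rw [lc, h5, card_singleton, Nat.cast_one, Real.log_one]
    rw [h3] at h2
    have : 0 ≤ m * r := by positivity
    linarith
  -- the union
  have hprod := card_mul_le (K := K) hdis r0 hr0 (show rB + r ≤ Real.log q by linarith)
  have hp1 : (0 : ℝ) < (RS q K B B rB).card := by
    have := one_le_card (K := K) (V := B) (W := B) r0 (by linarith); linarith
  have hp2 : (0 : ℝ) < (RS q K U U r).card := by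
    have := one_le_card (K := K) (V := U) (W := U) hr0 (by linarith); linarith
  have hlog : lc q K B B rB + lc q K U U r ≤ lc q K (B ∪ U) (B ∪ U) (rB + r) := by
    unfold lc
    rw [← Real.log_mul hp1.ne' hp2.ne']
    apply Real.log_le_log (mul_pos hp1 hp2)
    exact_mod_cast hprod
  have hE2 : lc q K (B ∪ U) (B ∪ U) (rB + r) ≤ E :=
    lc_le_of_card (by linarith) (by linarith) hK
  have hgood : Good q K R c m (B ∪ U) := by
    refine ⟨rB + r, by linarith, ?_, ?_, ?_⟩
    · have h3 : m * (rB + r) ≤ E := by linarith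
      rw [hm, div_mul_eq_mul_div, div_le_iff₀ hR] at h3
      have h4 : E * (2 * (rB + r)) ≤ E * R := by linarith
      have := le_of_mul_le_mul_left h4 hE
      linarith
    · rw [card_union_of_disjoint hdis]
      push_cast
      rw [mul_add]
      linarith
    · rw [mul_add]; linarith
  have h3 := hmax (B ∪ U) (by
    rw [mem_filter, mem_powerset]
    exact ⟨union_subset hBX hUX, hgood⟩)
  rw [card_union_of_disjoint hdis] at h3
  have := hUne.card_pos
  omega

lemma pf_card {K : Subgroup (ZMod q)ˣ} {V W V' : Finset ℕ} {r h : ℝ}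
    (hV' : ∀ p ∈ V', p.Prime ∧ h ≤ Real.log p) (hV : V ⊆ V') (hW : W ⊆ V') {f : ℕ × ℕ}
    (hf : IsR q K V W r f) :
    (f.1 * f.2).primeFactors ⊆ V' ∧ ((f.1 * f.2).primeFactors.card : ℝ) * h ≤ sz f := by
  obtain ⟨b1, b2, b3, b4, b5, b6, b7⟩ := hf
  have hpf : (f.1 * f.2).primeFactors ⊆ V' := by
    rw [Nat.primeFactors_mul b1.ne' b2.ne']
    exact union_subset (b4.trans hV) (b5.trans hW)
  refine ⟨hpf, ?_⟩
  have h1 := sum_log_le (f.1 * f.2).primeFactors (fun p hp => Nat.prime_of_mem_primeFactors hp)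
    (Nat.mul_pos b1 b2) (fun p hp => Nat.dvd_of_mem_primeFactors hp)
  have h2 : ((f.1 * f.2).primeFactors.card : ℝ) * h ≤ ∑ p ∈ (f.1 * f.2).primeFactors, Real.log p := by
    rw [← nsmul_eq_mul]
    exact Finset.card_nsmul_le_sum _ _ _ fun p hp => (hV' p (hpf hp)).2
  exact h2.trans h1

theorem count_le (K : Subgroup (ZMod q)ˣ) (V : Finset ℕ) {R c m E h β : ℝ} (hh : 0 < h)
    (hV : ∀ p ∈ V, p.Prime ∧ h ≤ Real.log p) (hR : 0 < R) (hRq : 2 * R < Real.log q) (hE : 0 < E)
    (hK : Real.log (Fintype.card K) ≤ E) (hc : 0 ≤ c)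
    (hprop : ∀ U ⊆ V, ∀ r : ℝ, 0 ≤ r → r ≤ R / 2 → lc q K U U r ≤ max (c * U.card) (m * r))
    (hβ1 : 2 * c / h ≤ β) (hβ2 : m ≤ β) {r₀ : ℝ} (h0 : 0 < r₀) (h1 : r₀ ≤ R) (J : ℕ)
    (hJ1 : (2 : ℝ) ^ J ≤ R / r₀) (hJ2 : R / r₀ < 2 ^ (J + 1)) :
    lc q K V V r₀ ≤ r₀ * (Real.log 2 / h + 2 * E / R + J * β / 2) := by
  have hlog2 : 0 < Real.log 2 := Real.log_pos (by norm_num)
  have hr0q : r₀ ≤ Real.log q := by linarith
  -- colouring
  obtain ⟨S, hSV, hcol⟩ := exists_colour K V hr0q ⌊r₀ / h⌋₊ (by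
    intro f hf
    rw [mem_RS hr0q] at hf
    have h2 := (pf_card hV (Finset.Subset.refl V) (Finset.Subset.refl V) hf).2
    apply Nat.le_floor
    rw [le_div_iff₀ hh]
    exact h2.trans hf.2.2.2.2.2.2)
  set S' := V \ S with hS'
  have hS'V : S' ⊆ V := sdiff_subset
  have hdis : Disjoint S S' := disjoint_sdiff
  have hlc : ∀ r : ℝ, 0 ≤ r → r ≤ Real.log q → (0 : ℝ) < (RS q K S S' r).card := fun r a b => by
    have := one_le_card (K := K) (V := S) (W := S') a b
    linarith
  have hstep1 : lc q K V V r₀ ≤ r₀ / h * Real.log 2 + lc q K S S' r₀ := by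
    have h2 : lc q K V V r₀ ≤ Real.log ((2 : ℝ) ^ ⌊r₀ / h⌋₊ * ((RS q K S S' r₀).card : ℝ)) := by
      apply Real.log_le_log
      · have := one_le_card (K := K) (V := V) (W := V) h0.le hr0q
        linarith
      · exact_mod_cast hcol
    rw [Real.log_mul (by positivity) (hlc r₀ h0.le hr0q).ne', Real.log_pow] at h2
    refine h2.trans (add_le_add (mul_le_mul_of_nonneg_right (Nat.floor_le (by positivity)) hlog2.le)
      le_rfl)
  -- iteration
  have hpowJ : (2 : ℝ) ^ J * r₀ ≤ R := by rwa [le_div_iff₀ h0] at hJ1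
  have hiter : ∀ j : ℕ, j ≤ J → (2 : ℝ) ^ j * lc q K S S' r₀ ≤
      lc q K S S' (2 ^ j * r₀) + j * 2 ^ j * (β * r₀ / 2) := by
    intro j
    induction j with
    | zero => intro _; simp
    | succ j ih =>
      intro hj
      have hi := ih (by omega)
      set r : ℝ := 2 ^ j * r₀ with hr
      have hr0 : 0 < r := by positivity
      have h2r : 2 * r ≤ R := by
        calc 2 * r = 2 ^ (j + 1) * r₀ := by rw [hr, pow_succ]; ring
          _ ≤ 2 ^ J * r₀ := by
            apply mul_le_mul_of_nonneg_right _ h0.le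
            exact pow_le_pow_right₀ (by norm_num) hj
          _ ≤ R := hpowJ
      have hΦ : ∀ v ∈ RS q K S S' (2 * r),
          (RS q K (v.1 * v.2).primeFactors (v.1 * v.2).primeFactors r).card ≤
            ⌊Real.exp (β * r)⌋₊ := by
        intro v hv
        rw [mem_RS (by linarith)] at hv
        obtain ⟨p1, p2⟩ := pf_card hV hSV hS'V hv
        have hvs : sz v ≤ 2 * r := hv.2.2.2.2.2.2
        set Uv := (v.1 * v.2).primeFactors with hUv
        have h3 := hprop Uv p1 r hr0.le (by linarith)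
        apply Nat.le_floor
        rw [← Real.log_le_iff_le_exp]
        · refine h3.trans (max_le ?_ (mul_le_mul_of_nonneg_right hβ2 hr0.le))
          have h4 : (Uv.card : ℝ) ≤ 2 * r / h := by
            rw [le_div_iff₀ hh]; linarith
          calc c * (Uv.card : ℝ) ≤ c * (2 * r / h) := mul_le_mul_of_nonneg_left h4 hc
            _ = 2 * c / h * r := by ring
            _ ≤ β * r := mul_le_mul_of_nonneg_right hβ1 hr0.le
        · have := one_le_card (K := K) (V := Uv) (W := Uv) hr0.le (show r ≤ Real.log q by linarith)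
          linarith
      have hsq := card_sq_le (K := K) hdis hr0.le (by linarith) _ hΦ
      have hsq2 : ((RS q K S S' r).card : ℝ) ^ 2 ≤ Real.exp (β * r) * ((RS q K S S' (2 * r)).card : ℝ) := by
        have h5 : ((RS q K S S' r).card : ℝ) ^ 2 ≤
            (⌊Real.exp (β * r)⌋₊ : ℝ) * ((RS q K S S' (2 * r)).card : ℝ) := by exact_mod_cast hsq
        refine h5.trans (mul_le_mul_of_nonneg_right (Nat.floor_le (Real.exp_pos _).le)
          (Nat.cast_nonneg _))
      have hlog : 2 * lc q K S S' r ≤ β * r + lc q K S S' (2 * r) := by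
        have h5 := Real.log_le_log (pow_pos (hlc r hr0.le (by linarith)) 2) hsq2
        rw [Real.log_pow, Real.log_mul (Real.exp_pos _).ne'
          (hlc (2 * r) (by linarith) (by linarith)).ne', Real.log_exp] at h5
        exact_mod_cast h5
      have e1 : (2 : ℝ) ^ (j + 1) * r₀ = 2 * r := by rw [hr, pow_succ]; ring
      rw [e1]
      have e2 : (2 : ℝ) ^ (j + 1) * lc q K S S' r₀ = 2 * (2 ^ j * lc q K S S' r₀) := by
        rw [pow_succ]; ring
      rw [e2]
      have e3 : (((j + 1 : ℕ) : ℝ) * 2 ^ (j + 1) * (β * r₀ / 2)) =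
          β * r + 2 * (j * 2 ^ j * (β * r₀ / 2)) := by
        rw [hr, pow_succ]; push_cast; ring
      rw [e3]
      linarith
  have hfin := hiter J le_rfl
  have hE2 : lc q K S S' (2 ^ J * r₀) ≤ E :=
    lc_le_of_card (by positivity) (by linarith) hK
  have h2J : (0 : ℝ) < 2 ^ J := by positivity
  have h3 : lc q K S S' r₀ ≤ E / 2 ^ J + J * (β * r₀ / 2) := by
    have h4 : (2 : ℝ) ^ J * lc q K S S' r₀ ≤ 2 ^ J * (E / 2 ^ J + J * (β * r₀ / 2)) := by
      have e : (2 : ℝ) ^ J * (E / 2 ^ J + J * (β * r₀ / 2)) = E + J * 2 ^ J * (β * r₀ / 2) := by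
        field_simp
      rw [e]
      linarith
    exact le_of_mul_le_mul_left h4 h2J
  have h4 : E / 2 ^ J ≤ 2 * E / R * r₀ := by
    rw [div_le_iff₀ h2J]
    have h5 : R < 2 * 2 ^ J * r₀ := by
      rw [div_lt_iff₀ h0, pow_succ] at hJ2
      linarith
    have h6 : 2 * E / R * r₀ * 2 ^ J = E * ((2 * 2 ^ J * r₀) / R) := by ring
    rw [h6]
    have h7 : 1 ≤ (2 * 2 ^ J * r₀) / R := by rw [le_div_iff₀ hR]; linarith
    nlinarith
  have h5 : r₀ * (Real.log 2 / h + 2 * E / R + J * β / 2) =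
      r₀ / h * Real.log 2 + 2 * E / R * r₀ + J * (β * r₀ / 2) := by ring
  rw [h5]
  linarith

/-- the weighted sum over the relations -/
theorem wsum_le (K : Subgroup (ZMod q)ˣ) (V : Finset ℕ) {R h γ θ : ℝ} (hh : 0 < h)
    (hV : ∀ p ∈ V, p.Prime ∧ h ≤ Real.log p) (hR : 0 < R) (hRq : 2 * R < Real.log q)
    (hγ : 0 ≤ γ) (hθ : 2 * γ < θ)
    (hcount : ∀ r : ℝ, 0 < r → r ≤ R → lc q K V V r ≤ γ * r) :
    ∑ f ∈ (RS q K V V R).erase (1, 1), Real.exp (-(θ * sz f)) ≤
      Real.exp (-((θ - 2 * γ) * h)) / (1 - Real.exp (-((θ - 2 * γ) * h))) := by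
  have hRq' : R ≤ Real.log q := by linarith
  set ρ : ℝ := Real.exp (-((θ - 2 * γ) * h)) with hρ
  have hρ0 : 0 < ρ := Real.exp_pos _
  have hρ1 : ρ < 1 := by
    rw [hρ, Real.exp_lt_one_iff]
    have : 0 < (θ - 2 * γ) * h := mul_pos (by linarith) hh
    linarith
  have hθ0 : 0 < θ := by linarith
  -- the sizes are at least `h`
  have hsz : ∀ f ∈ (RS q K V V R).erase (1, 1), h ≤ sz f ∧ sz f ≤ R := by
    intro f hf
    rw [mem_erase, mem_RS hRq'] at hf
    obtain ⟨hne, hf⟩ := hf
    refine ⟨?_, hf.2.2.2.2.2.2⟩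
    obtain ⟨p1, p2⟩ := pf_card hV (Finset.Subset.refl V) (Finset.Subset.refl V) hf
    have h1 : 1 ≤ (f.1 * f.2).primeFactors.card := by
      rw [Nat.one_le_iff_ne_zero]
      intro h0
      rw [card_eq_zero, Nat.primeFactors_eq_empty] at h0
      apply hne
      have hp := Nat.mul_pos hf.1 hf.2.1
      have h2 : f.1 * f.2 = 1 := by omega
      exact Prod.ext (Nat.eq_one_of_mul_eq_one_right h2) (Nat.eq_one_of_mul_eq_one_left h2)
    have h2 : (1 : ℝ) ≤ (f.1 * f.2).primeFactors.card := by exact_mod_cast h1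
    nlinarith
  have hmaps : ∀ f ∈ (RS q K V V R).erase (1, 1), ⌊sz f / h⌋₊ ∈ Icc 1 ⌊R / h⌋₊ := by
    intro f hf
    obtain ⟨h1, h2⟩ := hsz f hf
    rw [mem_Icc]
    refine ⟨Nat.le_floor ?_, Nat.floor_mono (div_le_div_of_nonneg_right h2 hh.le)⟩
    rw [Nat.cast_one, le_div_iff₀ hh]; linarith
  rw [← Finset.sum_fiberwise_of_maps_to hmaps]
  have hfib : ∀ j ∈ Icc 1 ⌊R / h⌋₊, ∑ f ∈ ((RS q K V V R).erase (1, 1)).filter
      (fun f => ⌊sz f / h⌋₊ = j), Real.exp (-(θ * sz f)) ≤ ρ ^ j := by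
    intro j hj
    rw [mem_Icc] at hj
    have hj1 : (1 : ℝ) ≤ j := by exact_mod_cast hj.1
    set r : ℝ := min ((j + 1) * h) R with hr
    have hr0 : 0 < r := lt_min (by positivity) hR
    have hrR : r ≤ R := min_le_right _ _
    have hr1 : r ≤ (j + 1) * h := min_le_left _ _
    have h1 : ∀ f ∈ ((RS q K V V R).erase (1, 1)).filter (fun f => ⌊sz f / h⌋₊ = j),
        Real.exp (-(θ * sz f)) ≤ Real.exp (-(θ * (j * h))) := by
      intro f hf
      rw [mem_filter] at hf
      rw [Real.exp_le_exp]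
      have h2 : (j : ℝ) ≤ sz f / h := by
        rw [← hf.2]
        apply Nat.floor_le
        have := (hsz f hf.1).1
        exact div_nonneg (by linarith) hh.le
      rw [le_div_iff₀ hh] at h2
      nlinarith
    refine (Finset.sum_le_card_nsmul _ _ _ h1).trans ?_
    rw [nsmul_eq_mul]
    have h2 : (((RS q K V V R).erase (1, 1)).filter (fun f => ⌊sz f / h⌋₊ = j)).card ≤
        (RS q K V V r).card := by
      apply card_le_card
      intro f hf
      rw [mem_filter, mem_erase, mem_RS hRq'] at hf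
      obtain ⟨⟨hne, b1, b2, b3, b4, b5, b6, b7⟩, hfj⟩ := hf
      rw [mem_RS (hrR.trans hRq')]
      refine ⟨b1, b2, b3, b4, b5, b6, le_min ?_ b7⟩
      have h3 := Nat.lt_floor_add_one (sz f / h)
      rw [hfj, div_lt_iff₀ hh] at h3
      exact h3.le
    have h3 : ((RS q K V V r).card : ℝ) ≤ Real.exp (γ * r) := by
      rw [← Real.log_le_iff_le_exp]
      · exact hcount r hr0 hrR
      · have := one_le_card (K := K) (V := V) (W := V) hr0.le (hrR.trans hRq')
        linarith
    have h4 : ((((RS q K V V R).erase (1, 1)).filter (fun f => ⌊sz f / h⌋₊ = j)).card : ℝ) ≤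
        Real.exp (γ * ((j + 1) * h)) := by
      refine (show _ ≤ ((RS q K V V r).card : ℝ) by exact_mod_cast h2).trans (h3.trans ?_)
      exact Real.exp_le_exp.2 (mul_le_mul_of_nonneg_left hr1 hγ)
    refine (mul_le_mul_of_nonneg_right h4 (Real.exp_pos _).le).trans ?_
    rw [← Real.exp_add, hρ, ← Real.exp_nat_mul, Real.exp_le_exp]
    have h5 : 0 ≤ γ * h := by positivity
    nlinarith
  refine (Finset.sum_le_sum hfib).trans ?_
  have hgeom : ∀ n : ℕ, ∑ j ∈ Icc 1 n, ρ ^ j ≤ ρ / (1 - ρ) := by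
    intro n
    rw [le_div_iff₀ (by linarith)]
    have h1 : ∀ n : ℕ, (∑ j ∈ Icc 1 n, ρ ^ j) * (1 - ρ) = ρ - ρ ^ (n + 1) := by
      intro n
      induction n with
      | zero => simp
      | succ n ih =>
        rw [Finset.sum_Icc_succ_top (by omega), add_mul, ih]
        ring
    rw [h1]
    have : 0 < ρ ^ (n + 1) := by positivity
    linarith
  exact hgeom _

end Pool.Agent.V8H35.EC
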