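import Pool.Agent.V8H35.EC.R00

/-!
# The finite form of the coset inequality, with a bound for the sum over the relations

This is the inequality of `Pool.Agent.R311.RES.C7`, with the hypothesis on each single relation replaced by
one on the sum over the relations.
-/

set_option autoImplicit false

namespace Pool.Agent.V8H35.EC
open Finset
open scoped Classical
open Pool.Agent.R311.RES

variable {q : ℕ} [Fact q.Prime]

theorem second_bound' (H : Subgroup (DirichletCharacter ℂ q)) (B P : Finset ℕ)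
    (hP : ∀ p ∈ P, p.Prime) (hBP : ∀ p ∈ B, p.Prime ∧ p ∉ P)
    (N U : ℕ) (hNq : N < q) (hUN : U * N < q) (hNU : N ≤ U) (r : ℕ → ℝ) (hr : ∀ p, 0 ≤ r p)
    (c : (ZMod q)ˣ → ℝ) (hc0 : ∀ k, 0 ≤ c k)
    (Hc : ∀ k ∈ ann H, ∀ s t : ℕ, 0 < s → 0 < t → s ≤ U → t ≤ N → Nat.Coprime s t →
      ¬ (s = 1 ∧ t = 1) → (s : ZMod q) = (k : ZMod q) * t → (∀ p ∈ B, ¬ p ∣ s) →
      t.primeFactors ⊆ P → ms t.primeFactors = t → ws r t.primeFactors * gs r P s ≤ c k) :
    ∑ z ∈ prs H (IN P N) (ui q) 1, ws r z.1 * ws r z.2 ≤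
      EN r P N + (∑ k ∈ univ.filter (fun k : (ZMod q)ˣ => k ∈ ann H), c k) * EN r P N := by
  have hE0 : 0 ≤ EN r P N := Finset.sum_nonneg fun S _ => sq_nonneg _
  rw [← Finset.sum_filter_add_sum_filter_not (prs H (IN P N) (ui q) 1) (fun z => z.1 = z.2)]
  apply add_le_add
  · rw [EN]
    have hinj : Set.InjOn (fun z : Finset ℕ × Finset ℕ => z.1)
        ((prs H (IN P N) (ui q) 1).filter (fun z => z.1 = z.2)) := by
      intro z hz z' hz' h
      rw [mem_coe, mem_filter] at hz hz'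
      simp only at h
      exact Prod.ext h (by rw [← hz.2, ← hz'.2, h])
    have e1 : ∑ z ∈ (prs H (IN P N) (ui q) 1).filter (fun z => z.1 = z.2), ws r z.1 * ws r z.2 =
        ∑ z ∈ (prs H (IN P N) (ui q) 1).filter (fun z => z.1 = z.2), ws r z.1 ^ 2 := by
      apply Finset.sum_congr rfl
      intro z hz
      rw [mem_filter] at hz
      rw [← hz.2]; ring
    rw [e1, ← Finset.sum_image (f := fun S => ws r S ^ 2) hinj]
    apply Finset.sum_le_sum_of_subset_of_nonneg _ (fun S _ _ => sq_nonneg _)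
    intro S hS
    rw [mem_image] at hS
    obtain ⟨z, hz, rfl⟩ := hS
    rw [mem_filter, prs, mem_filter, mem_product] at hz
    exact hz.1.1.1
  · set X := (prs H (IN P N) (ui q) 1).filter (fun z => ¬ z.1 = z.2) with hX
    have hmaps : ∀ z ∈ X, ui q z.1 * (ui q z.2)⁻¹ ∈ univ.filter (fun k : (ZMod q)ˣ => k ∈ ann H) := by
      intro z hz
      rw [hX, mem_filter, prs, mem_filter, one_mul] at hz
      rw [mem_filter]
      exact ⟨mem_univ _, hz.1.2⟩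
    rw [← Finset.sum_fiberwise_of_maps_to hmaps]
    rw [Finset.sum_mul]
    apply Finset.sum_le_sum
    intro k hk
    rw [mem_filter] at hk
    have hfacts : ∀ z ∈ X.filter (fun z => ui q z.1 * (ui q z.2)⁻¹ = k),
        z.1 ∈ IN P N ∧ z.2 ∈ IN P N ∧ 0 < ms z.1 ∧ 0 < ms z.2 ∧
        ((ms z.1 : ℕ) : ZMod q) = (k : ZMod q) * ((ms z.2 : ℕ) : ZMod q) ∧ ¬ ms z.1 = ms z.2 := by
      intro z hz
      rw [mem_filter, hX, mem_filter, prs, mem_filter, mem_product] at hz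
      obtain ⟨⟨⟨⟨a1, a2⟩, a3⟩, a4⟩, a5⟩ := hz
      have b1 := mem_IN.1 a1
      have b2 := mem_IN.1 a2
      refine ⟨a1, a2, ms_pos fun p hp => hP p (b1.1 hp), ms_pos fun p hp => hP p (b2.1 hp), ?_, ?_⟩
      · rw [ui_val hP hNq a1, ui_val hP hNq a2, ← Units.val_mul, ← a5]
        simp
      · intro h
        exact a4 (ms_inj (fun p hp => hP p (b1.1 hp)) (fun p hp => hP p (b2.1 hp)) h)
    rcases (X.filter (fun z => ui q z.1 * (ui q z.2)⁻¹ = k)).eq_empty_or_nonempty with he | ⟨z₀, hz₀⟩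
    · rw [he, sum_empty]; exact mul_nonneg (hc0 k) hE0
    · obtain ⟨a1, a2, a3, a4, a5, a6⟩ := hfacts z₀ hz₀
      have b2 := mem_IN.1 a2
      have b1 := mem_IN.1 a1
      obtain ⟨g, g0, g1, g2, g3, g4, g5, g6⟩ := red_frac a3 a4
      have hcl := frac_class a3 a4 b2.2 hNq (k : ZMod q) a5
      set s := ms z₀.1 / Nat.gcd (ms z₀.1) (ms z₀.2) with hs
      set t := ms z₀.2 / Nat.gcd (ms z₀.1) (ms z₀.2) with ht
      have hsU : s ≤ U := ((Nat.div_le_self _ _).trans b1.2).trans hNU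
      have htN : t ≤ N := (Nat.div_le_self _ _).trans b2.2
      have hne : ¬ (s = 1 ∧ t = 1) := by
        rintro ⟨h1, h2⟩
        apply a6
        rw [← g1, ← g2, h1, h2]
      have hsd : s ∣ ms z₀.1 := by rw [← g1]; exact Dvd.intro _ rfl
      have htd : t ∣ ms z₀.2 := by rw [← g2]; exact Dvd.intro _ rfl
      have hsB : ∀ p ∈ B, ¬ p ∣ s := by
        intro p hp hd
        have h2 := (prime_dvd_ms (fun p' hp' => hP p' (b1.1 hp')) (hBP p hp).1).1 (hd.trans hsd)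
        exact (hBP p hp).2 (b1.1 h2)
      obtain ⟨t1, t2⟩ := dvd_ms_eq (fun p hp => hP p (b2.1 hp)) htd
      obtain ⟨s1, s2⟩ := dvd_ms_eq (fun p hp => hP p (b1.1 hp)) hsd
      have hmain := Hc k hk.2 s t g4 g5 hsU htN g3 hne hcl hsB (t1.trans b2.1) t2
      have hE := E_bound r P hP hr N s t g4 g5 g3
      have hg := gs_ge hr P g4 (s1.trans b1.1) s2
      have huniq : ∀ z ∈ X.filter (fun z => ui q z.1 * (ui q z.2)⁻¹ = k), ms z.1 * t = ms z.2 * s := by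
        intro z hz
        obtain ⟨c1, c2, c3, c4, c5, c6⟩ := hfacts z hz
        have d2 := mem_IN.1 c2
        have d1 := mem_IN.1 c1
        obtain ⟨g', g0', g1', g2', g3', g4', g5', g6'⟩ := red_frac c3 c4
        have hcl' := frac_class c3 c4 d2.2 hNq (k : ZMod q) c5
        obtain ⟨e1, e2⟩ := frac_unique hUN hsU htN (((Nat.div_le_self _ _).trans d1.2).trans hNU)
          ((Nat.div_le_self _ _).trans d2.2) g3 g3' g4 (k : ZMod q) hcl hcl'
        have i1 : s * g' = ms z.1 := by rw [e1]; exact g1'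
        have i2 : t * g' = ms z.2 := by rw [e2]; exact g2'
        calc ms z.1 * t = (s * g') * t := by rw [i1]
          _ = (t * g') * s := by ring
          _ = ms z.2 * s := by rw [i2]
      calc ∑ z ∈ X.filter (fun z => ui q z.1 * (ui q z.2)⁻¹ = k), ws r z.1 * ws r z.2 ≤
          ∑ z ∈ (IN P N ×ˢ IN P N).filter (fun z => ms z.1 * t = ms z.2 * s), ws r z.1 * ws r z.2 := by
            apply Finset.sum_le_sum_of_subset_of_nonneg
            · intro z hz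
              obtain ⟨c1, c2, -⟩ := hfacts z hz
              rw [mem_filter, mem_product]
              exact ⟨⟨c1, c2⟩, huniq z hz⟩
            · intro z _ _
              exact mul_nonneg (ws_nonneg hr _) (ws_nonneg hr _)
        _ ≤ ws r s.primeFactors * ws r t.primeFactors * EN r P N := hE
        _ ≤ c k * EN r P N := by
            apply mul_le_mul_of_nonneg_right _ hE0
            calc ws r s.primeFactors * ws r t.primeFactors ≤ gs r P s * ws r t.primeFactors :=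
                  mul_le_mul_of_nonneg_right hg (ws_nonneg hr _)
              _ = ws r t.primeFactors * gs r P s := mul_comm _ _
              _ ≤ c k := hmain

theorem rest_bound' (H : Subgroup (DirichletCharacter ℂ q)) (B P : Finset ℕ)
    (hP : ∀ p ∈ P, p.Prime) (hBP : ∀ p ∈ B, p.Prime ∧ p ∉ P)
    (N U A0 L : ℕ) (hA0 : 0 < A0) (hNq : N < q) (hUN : U * N < q) (hUN2 : q ≤ 2 * U * N)
    (r : ℕ → ℝ) (hr : ∀ p, 0 ≤ r p) (hr1 : ∀ p ∈ P, r p ≤ 1)
    (c : (ZMod q)ˣ → ℝ) (hc0 : ∀ k, 0 ≤ c k)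
    (Hc : ∀ k ∈ ann H, ∀ s t : ℕ, 0 < s → 0 < t → s ≤ U → t ≤ N → Nat.Coprime s t →
      ¬ (s = 1 ∧ t = 1) → (s : ZMod q) = (k : ZMod q) * t → (∀ p ∈ B, ¬ p ∣ s) →
      t.primeFactors ⊆ P → ms t.primeFactors = t → ws r t.primeFactors * gs r P s ≤ c k)
    (hL : ∀ u : ℕ, 0 < u → u ≤ A0 * N → (P.filter (fun p => p ∣ u)).card ≤ L) :
    ∑ a : (ZMod q)ˣ, bw B (a : ZMod q).val * ∑ z ∈ (prs H (IN P N) (ui q) a).filter
        (fun z => ¬ (a : ZMod q).val * ms z.1 = ms z.2), ws r z.1 * ws r z.2 ≤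
      (∑ k ∈ univ.filter (fun k : (ZMod q)ˣ => k ∈ ann H), c k) * FN r P N +
        (Fintype.card (ann H) : ℝ) * ((A0 : ℝ) ^ (-(1 / 2 : ℝ)) * (N * EN r P N) +
        2 ^ L * Real.sqrt N * (12 * ((Nat.log 2 (A0 * N) : ℝ) + 1) * (Real.sqrt (A0 * N : ℕ) * N / q))) := by
  set 𝒴 := ((univ : Finset (ZMod q)ˣ) ×ˢ (IN P N ×ˢ IN P N)).filter (fun y =>
    y.1 * ui q y.2.1 * (ui q y.2.2)⁻¹ ∈ ann H ∧ ¬ (y.1 : ZMod q).val * ms y.2.1 = ms y.2.2) with hY
  have e1 : ∑ a : (ZMod q)ˣ, bw B (a : ZMod q).val * ∑ z ∈ (prs H (IN P N) (ui q) a).filter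
        (fun z => ¬ (a : ZMod q).val * ms z.1 = ms z.2), ws r z.1 * ws r z.2 =
        ∑ y ∈ 𝒴, Wt q B r y := by
    rw [hY, Finset.sum_filter, Finset.sum_product]
    apply Finset.sum_congr rfl
    intro a _
    rw [prs, Finset.filter_filter, Finset.sum_filter, Finset.mul_sum]
    apply Finset.sum_congr rfl
    intro z _
    simp only [Wt]
    split_ifs
    · rfl
    · rw [mul_zero]
  rw [e1]
  have hmaps : ∀ y ∈ 𝒴, y.1 * ui q y.2.1 * (ui q y.2.2)⁻¹ ∈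
      univ.filter (fun k : (ZMod q)ˣ => k ∈ ann H) := by
    intro y hy
    rw [hY, mem_filter] at hy
    rw [mem_filter]
    exact ⟨mem_univ _, hy.2.1⟩
  rw [← Finset.sum_fiberwise_of_maps_to hmaps]
  have hcard : (univ.filter (fun k : (ZMod q)ˣ => k ∈ ann H)).card = Fintype.card (ann H) :=
    (Fintype.card_subtype _).symm
  rw [← hcard, ← nsmul_eq_mul, Finset.sum_mul, ← Finset.sum_const, ← Finset.sum_add_distrib]
  apply Finset.sum_le_sum
  intro k hk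
  rw [mem_filter] at hk
  have e2 : 𝒴.filter (fun y => y.1 * ui q y.2.1 * (ui q y.2.2)⁻¹ = k) = Xk q P N k := by
    ext y
    rw [hY, mem_filter, mem_filter, Xk, mem_filter]
    constructor
    · rintro ⟨⟨a1, a2, a3⟩, a4⟩
      exact ⟨a1, a4, a3⟩
    · rintro ⟨a1, a4, a3⟩
      exact ⟨⟨a1, by rw [a4]; exact hk.2, a3⟩, a4⟩
  rw [e2]
  have t1 := typeI B P hP hBP N U hNq hUN r hr k (c k) (hc0 k) (Hc k hk.2)
  have t2 := typeIIa (q := q) B P N U A0 hA0 r hr k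
  have t3 := typeIIb B P hP N U A0 L hNq hUN2 r hr hr1 k hL
  have t4 := sum_ws_sq r P hP N
  have e3 : ∑ y ∈ Xk q P N k, Wt q B r y = ∑ y ∈ (Xk q P N k).filter (fun y => rs q y ≤ U), Wt q B r y +
      (∑ y ∈ (Xk q P N k).filter (fun y => U < rs q y ∧ A0 < (y.1 : ZMod q).val), Wt q B r y +
      ∑ y ∈ (Xk q P N k).filter (fun y => U < rs q y ∧ ¬ A0 < (y.1 : ZMod q).val), Wt q B r y) := by
    rw [← Finset.sum_filter_add_sum_filter_not (Xk q P N k) (fun y => rs q y ≤ U)]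
    congr 1
    rw [← Finset.sum_filter_add_sum_filter_not ((Xk q P N k).filter (fun y => ¬ rs q y ≤ U))
      (fun y => A0 < (y.1 : ZMod q).val)]
    simp only [Finset.filter_filter, not_le]
  have t5 : (A0 : ℝ) ^ (-(1 / 2 : ℝ)) * (∑ S ∈ IN P N, ws r S) ^ 2 ≤
      (A0 : ℝ) ^ (-(1 / 2 : ℝ)) * (N * EN r P N) := mul_le_mul_of_nonneg_left t4 (by positivity)
  rw [e3]
  linarith

theorem coset_finite' (H : Subgroup (DirichletCharacter ℂ q)) (χ₀ : DirichletCharacter ℂ q)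
    (B P : Finset ℕ) (hP : ∀ p ∈ P, p.Prime) (hBP : ∀ p ∈ B, p.Prime ∧ p ∉ P) (hBq : ∀ p ∈ B, p ≠ q)
    (N U A0 L : ℕ) (hN : 1 ≤ N) (hA0 : 0 < A0) (hUN : U * N < q) (hUN2 : q ≤ 2 * U * N)
    (hNU : N ≤ U)
    (r : ℕ → ℝ) (hr : ∀ p, 0 ≤ r p) (hr1 : ∀ p ∈ P, r p ≤ 1)
    (c : (ZMod q)ˣ → ℝ) (hc0 : ∀ k, 0 ≤ c k)
    (hcs : ∑ k ∈ univ.filter (fun k : (ZMod q)ˣ => k ∈ ann H), c k ≤ 1 / 4)
    (Hc : ∀ k ∈ ann H, ∀ s t : ℕ, 0 < s → 0 < t → s ≤ U → t ≤ N → Nat.Coprime s t →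
      ¬ (s = 1 ∧ t = 1) → (s : ZMod q) = (k : ZMod q) * t → (∀ p ∈ B, ¬ p ∣ s) →
      t.primeFactors ⊆ P → ms t.primeFactors = t → ws r t.primeFactors * gs r P s ≤ c k)
    (hL : ∀ u : ℕ, 0 < u → u ≤ A0 * N → (P.filter (fun p => p ∣ u)).card ≤ L)
    (V : ℝ) (hV0 : 0 ≤ V) (A : Finset H)
    (hV : ∀ ψ : H, ψ ∉ A →
      ‖DirichletCharacter.LFunction (χ₀ * (ψ : DirichletCharacter ℂ q)) (1 / 2)‖ ≤ V) :
    3 / 4 * FN r P N ≤ EN r P N * (5 / 4 * (V * ∏ p ∈ B, (1 + (p : ℝ) ^ (-(1 / 2 : ℝ)))) +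
      N * Real.sqrt (A.card * ((q - 1) * (2 * (1 + Real.log q) + 32 * 4 ^ B.card))) /
        (Fintype.card H : ℝ) +
      (Fintype.card (ann H) : ℝ) * ((4 * 2 ^ B.card) * (q : ℝ) ^ (-(1 / 2 : ℝ)) * N +
        (A0 : ℝ) ^ (-(1 / 2 : ℝ)) * N +
        2 ^ L * Real.sqrt N * (12 * ((Nat.log 2 (A0 * N) : ℝ) + 1) * (Real.sqrt (A0 * N : ℕ) * N / q)))) := by
  have hU0 : 1 ≤ U := hN.trans hNU
  have hNq : N < q := by
    refine lt_of_le_of_lt ?_ hUN
    exact Nat.le_mul_of_pos_left _ hU0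
  set κ : ℝ := (Fintype.card (ann H) : ℝ) with hκ
  have hκ0 : 0 < κ := by
    have : 0 < Fintype.card (ann H) := Fintype.card_pos
    rw [hκ]; exact_mod_cast this
  set cs : ℝ := ∑ k ∈ univ.filter (fun k : (ZMod q)ˣ => k ∈ ann H), c k with hcsd
  obtain ⟨co, hco1, hco2⟩ := coef_B (q := q) B (fun p hp => ⟨(hBP p hp).1, hBq p hp⟩)
  set M : ℝ := ∏ p ∈ B, (1 + (p : ℝ) ^ (-(1 / 2 : ℝ))) with hM
  have hM0 : 0 ≤ M := Finset.prod_nonneg fun p _ => by positivity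
  have hE0 : 0 ≤ EN r P N := Finset.sum_nonneg fun S _ => sq_nonneg _
  have hE1 : 1 ≤ EN r P N := by
    have h1 : ws r ∅ ^ 2 ≤ EN r P N := by
      apply Finset.single_le_sum (f := fun S => ws r S ^ 2) (fun S _ => sq_nonneg _)
      rw [mem_IN]
      exact ⟨empty_subset _, by simpa [ms] using hN⟩
    simpa [ws] using h1
  set Gf : DirichletCharacter ℂ q → ℂ := fun χ => DirichletCharacter.LFunction χ (1 / 2) *
      ∏ p ∈ B, (1 - χ (p : ZMod q) * (((p : ℝ) ^ (-(1 / 2 : ℝ)) : ℝ) : ℂ)) with hGf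
  have hG : ∀ ψ : H, ψ ∉ A → ‖Gf (χ₀ * (ψ : DirichletCharacter ℂ q))‖ ≤ V * M := by
    intro ψ hψ
    simp only [hGf]
    rw [norm_mul, norm_prod]
    apply mul_le_mul (hV ψ hψ) _ (Finset.prod_nonneg fun p _ => norm_nonneg _) hV0
    apply Finset.prod_le_prod (fun p _ => norm_nonneg _)
    intro p _
    refine (norm_sub_le _ _).trans ?_
    rw [norm_one, norm_mul, Complex.norm_real, Real.norm_of_nonneg (by positivity)]
    have h1 : ‖(χ₀ * (ψ : DirichletCharacter ℂ q)) (p : ZMod q)‖ ≤ 1 :=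
      DirichletCharacter.norm_le_one _ _
    have h2 : (0 : ℝ) ≤ (p : ℝ) ^ (-(1 / 2 : ℝ)) := by positivity
    nlinarith
  have h1 := exact_low (q := q) B P hP hBP N hNq r hr
  have h2 := second_bound' H B P hP hBP N U hNq hUN hNU r hr c hc0 Hc
  have h3 := rest_bound' H B P hP hBP N U A0 L hA0 hNq hUN hUN2 r hr hr1 c hc0 Hc hL
  have h4 := sum_ws_sq r P hP N
  set R3' : ℝ := 2 ^ L * Real.sqrt N * (12 * ((Nat.log 2 (A0 * N) : ℝ) + 1) *
    (Real.sqrt (A0 * N : ℕ) * N / q)) with hR3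
  have hR0 : 0 ≤ R3' := by positivity
  have hq0 : (0 : ℝ) ≤ (q : ℝ) ^ (-(1 / 2 : ℝ)) := by positivity
  have h5 : ((4 * 2 ^ B.card - 1) * (q : ℝ) ^ (-(1 / 2 : ℝ))) * ((∑ S ∈ IN P N, ws r S) ^ 2 * κ) ≤
      ((4 * 2 ^ B.card) * (q : ℝ) ^ (-(1 / 2 : ℝ))) * ((N * EN r P N) * κ) := by
    apply mul_le_mul
    · apply mul_le_mul_of_nonneg_right _ hq0
      linarith
    · exact mul_le_mul_of_nonneg_right h4 hκ0.le
    · positivity
    · positivity
  have h2' : ∑ z ∈ prs H (IN P N) (ui q) 1, ws r z.1 * ws r z.2 ≤ 5 / 4 * EN r P N := by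
    refine h2.trans ?_
    have := mul_le_mul_of_nonneg_right hcs hE0
    linarith
  set S : ℝ := (q - 1) * (2 * (1 + Real.log q) + 32 * 4 ^ B.card) with hSd
  have hq1 : (1 : ℝ) ≤ q := by exact_mod_cast (Nat.Prime.pos Fact.out : 0 < q)
  have hS : ∑ ψ : H, ‖Gf (χ₀ * (ψ : DirichletCharacter ℂ q))‖ ^ 2 ≤ S :=
    (coset_sq_le H χ₀ Gf co hco1).trans (mul_le_mul_of_nonneg_left (sum_c_sq B co hco2) (by linarith))
  have hwt := weighted_le H χ₀ (IN P N) (ws r) (fun S _ => ws_nonneg hr S) (ui q) Gf A (V * M) S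
    (5 / 4 * EN r P N) (mul_nonneg hV0 hM0) hG hS h2'
  have hcH : (0 : ℝ) < Fintype.card H := by
    have : 0 < Fintype.card H := Fintype.card_pos
    exact_mod_cast this
  set T : ℝ := V * M * (5 / 4 * EN r P N) + N * EN r P N * Real.sqrt (A.card * S) /
    (Fintype.card H : ℝ) with hTd
  have hT : ‖∑ ψ : H, ((‖R3 (IN P N) (ws r) (ui q) (χ₀ * (ψ : DirichletCharacter ℂ q))‖ ^ 2 : ℝ) : ℂ) *
      Gf (χ₀ * (ψ : DirichletCharacter ℂ q))‖ ≤ (Fintype.card H : ℝ) * T := by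
    refine hwt.trans ?_
    have e : (Fintype.card H : ℝ) * T = (Fintype.card H : ℝ) * (V * M * (5 / 4 * EN r P N)) +
        N * EN r P N * Real.sqrt (A.card * S) := by
      rw [hTd, mul_add]
      congr 1
      field_simp
    rw [e]
    apply add_le_add le_rfl
    exact mul_le_mul_of_nonneg_right h4 (Real.sqrt_nonneg _)
  have hmain := coset_w_main' H χ₀ (IN P N) (ws r) (fun S _ => ws_nonneg hr S) (ui q) ms
    (fun S hS => ui_val hP hNq hS) Gf co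
    (fun a => bw B (a : ZMod q).val) ((4 * 2 ^ B.card - 1) * (q : ℝ) ^ (-(1 / 2 : ℝ)))
    (fun a => bw_nonneg _ _) hco2 hco1 T hT
  have h8 : cs * FN r P N ≤ 1 / 4 * FN r P N :=
    mul_le_mul_of_nonneg_right hcs (FN_nonneg hr P N)
  have h9 : κ * R3' ≤ κ * (EN r P N * R3') := by
    apply mul_le_mul_of_nonneg_left _ hκ0.le
    calc R3' = 1 * R3' := (one_mul _).symm
      _ ≤ _ := mul_le_mul_of_nonneg_right hE1 hR0
  have h10 : EN r P N * (5 / 4 * (V * M) + N * Real.sqrt (A.card * S) / (Fintype.card H : ℝ) +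
      κ * ((4 * 2 ^ B.card) * (q : ℝ) ^ (-(1 / 2 : ℝ)) * N +
        (A0 : ℝ) ^ (-(1 / 2 : ℝ)) * N + R3')) =
      T +
      ((4 * 2 ^ B.card) * (q : ℝ) ^ (-(1 / 2 : ℝ))) * ((N * EN r P N) * κ) +
      κ * ((A0 : ℝ) ^ (-(1 / 2 : ℝ)) * (N * EN r P N)) + κ * (EN r P N * R3') := by rw [hTd]; ring
  rw [h10]
  have h11 := h1.trans hmain
  linarith

end Pool.Agent.V8H35.EC
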