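import Pool.Agent.V8H35.EC.R2
import Pool.Agent.V8H35.EC.R3
import Pool.Agent.R311.RES.C13

/-!
# The relations contribute little after the removal of few primes
-/

set_option autoImplicit false

namespace Pool.Agent.V8H35.EC

open Finset
open scoped Classical
open Pool.Agent.R311.RES

variable {q : ℕ} [Fact q.Prime]

/-- the facts about `x = log q` -/
structure FD (e A d f x : ℝ) : Prop where
  k1 : Real.log x / 2 ≤ Real.log (f ^ 2 / 16 * (x / Real.log x))
  k2 : 70 * A ≤ Real.log (Real.log x)
  k3 : 1000 * A ≤ Real.log x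
  k4 : Real.log 8 ≤ x * Real.log (Real.log x) / (64 * A * Real.log x)
  k5 : d * (x * Real.log (Real.log x) / Real.log x ^ 2) ≤ e / 20 * x
  k6 : 34 + 2 * x ≤ Real.exp (e / 10 * x)
  k7 : Real.log (Real.log x) ≤ Real.log x
  k8 : 100 ≤ x

theorem factsD (e A d f : ℝ) (he : 0 < e) (hA : 1 ≤ A) (hd : 0 < d) (hf : 0 < f) :
    ∀ᶠ x : ℝ in Filter.atTop, FD e A d f x := by
  have hL3 := loglog_tendsto
  have hL2 := Real.tendsto_log_atTop
  have e1 : ∀ᶠ x : ℝ in Filter.atTop, Real.log (Real.log x) ≤ 1 / 4 * Real.log x :=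
    Real.tendsto_log_atTop.eventually (log_small (1 / 4) (by norm_num))
  filter_upwards [hL3.eventually_ge_atTop (70 * A), e1, hL2.eventually_ge_atTop (1000 * A),
    hL2.eventually_ge_atTop (-4 * Real.log (f ^ 2 / 16)), hL2.eventually_ge_atTop (20 * d / e),
    Filter.eventually_ge_atTop (100 : ℝ), Filter.eventually_ge_atTop (800 / e ^ 2),
    sq_small (200 * A)] with x a1 a2 a3 a4 a5 a6 a7 a8
  set L := Real.log x with hL
  set M := Real.log L with hM
  have hx0 : 0 < x := by linarith
  have hL1 : 1000 ≤ L := by nlinarith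
  have hL0 : 0 < L := by linarith
  have hM0 : 0 < M := by nlinarith
  refine ⟨?_, a1, a3, ?_, ?_, ?_, by linarith, a6⟩
  · rw [Real.log_mul (by positivity) (by positivity), Real.log_div hx0.ne' hL0.ne', ← hL, ← hM]
    linarith
  · have h8 : Real.log 8 ≤ 3 := by
      have : Real.log 8 = 3 * Real.log 2 := by
        rw [show (8 : ℝ) = 2 ^ 3 by norm_num, Real.log_pow]; norm_num
      rw [this]
      have := Real.log_two_lt_d9
      linarith
    refine h8.trans ?_
    rw [le_div_iff₀ (by positivity)]
    have h1 : 200 * A * L ≤ 200 * A * L ^ 2 := by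
      apply mul_le_mul_of_nonneg_left _ (by positivity)
      nlinarith
    have h2 : x ≤ x * M := by
      have : 1 ≤ M := by nlinarith
      nlinarith
    have h3 : 0 < A * L := by positivity
    nlinarith
  · rw [div_le_iff₀ he] at a5
    have h1 : x * M / L ^ 2 ≤ x / L := by
      rw [div_le_div_iff₀ (by positivity) hL0]
      have : M ≤ L := by linarith
      have h2 : x * M * L ≤ x * L * L := by
        apply mul_le_mul_of_nonneg_right _ hL0.le
        exact mul_le_mul_of_nonneg_left this hx0.le
      nlinarith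
    calc d * (x * M / L ^ 2) ≤ d * (x / L) := mul_le_mul_of_nonneg_left h1 hd.le
      _ = d * x / L := by ring
      _ ≤ e / 20 * x := by
        rw [div_le_iff₀ hL0]
        nlinarith
  · have h1 := Real.quadratic_le_exp_of_nonneg (show 0 ≤ e / 10 * x by positivity)
    rw [div_le_iff₀ (by positivity)] at a7
    have h2 : (e / 10 * x) ^ 2 / 2 = x * (x * e ^ 2) / 200 := by ring
    have h3 : x * 800 ≤ x * (x * e ^ 2) := mul_le_mul_of_nonneg_left a7 hx0.le
    have h4 : 0 ≤ e / 10 * x := by positivity
    linarith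

/-- after the removal of few primes the sum over the relations is small -/
theorem exists_B' (K : Subgroup (ZMod q)ˣ) {A d f x L M E θ : ℝ} (hA : 1 ≤ A) (hd : 0 < d)
    (hf : 0 < f) (hf1 : f ≤ 1) (hx : x = Real.log q) (hL : L = Real.log x) (hM : M = Real.log L)
    (hE : E = d * (x * M / L ^ 2)) (hdA : d * (1152 * A) ≤ f ^ 2)
    (k1 : L / 2 ≤ Real.log (f ^ 2 / 16 * (x / L))) (k2 : 70 * A ≤ M) (k3 : 1000 * A ≤ L)
    (k4 : Real.log 8 ≤ x * M / (64 * A * L)) (k7 : M ≤ L) (k8 : 100 ≤ x)
    (hK : (Fintype.card K : ℝ) ≤ Real.exp E) (hθ : M / (4 * A * L) ≤ θ) :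
    ∃ B : Finset ℕ, (∀ p ∈ B, p.Prime ∧ p < q ∧ f ^ 2 / 16 * (x / L) < (p : ℝ)) ∧
      (B.card : ℝ) ≤ f ^ 2 / 8 * (x / L) ∧
      ∃ c : (ZMod q)ˣ → ℝ, (∀ k, 0 ≤ c k) ∧
        ∑ k ∈ univ.filter (fun k : (ZMod q)ˣ => k ∈ K), c k ≤ 1 / 4 ∧
        ∀ k ∈ K, ∀ s t : ℕ, 0 < s → 0 < t → Nat.Coprime s t → ¬ (s = 1 ∧ t = 1) →
          (s : ZMod q) = (k : ZMod q) * t → s < q → t < q →
          (∀ p : ℕ, p.Prime → p ∣ s * t → p ∉ B ∧ f ^ 2 / 16 * (x / L) < (p : ℝ)) →
          Real.exp (-(θ * sz (s, t))) ≤ c k := by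
  have hqp : q.Prime := Fact.out
  have hx0 : 0 < x := by linarith
  have hL1 : 1000 ≤ L := by linarith
  have hL0 : 0 < L := by linarith
  have hM1 : 70 ≤ M := by linarith
  have hM0 : 0 < M := by linarith
  have hA0 : 0 < A := by linarith
  have hE0 : 0 < E := by rw [hE]; positivity
  have hlog2 : Real.log 2 < 0.6931471808 := Real.log_two_lt_d9
  have hlog2' : 0 < Real.log 2 := Real.log_pos (by norm_num)
  have hlog2'' : 0.6931471803 < Real.log 2 := Real.log_two_gt_d9
  set z : ℝ := f ^ 2 / 16 * (x / L) with hz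
  set h : ℝ := Real.log z with hh
  have hh0 : 0 < h := by linarith
  have hz0 : 0 < z := by positivity
  set X : Finset ℕ := (range q).filter (fun p => p.Prime ∧ z < (p : ℝ)) with hX
  have hXp : ∀ p ∈ X, p.Prime ∧ h ≤ Real.log p := by
    intro p hp
    rw [hX, mem_filter] at hp
    exact ⟨hp.2.1, Real.log_le_log hz0 hp.2.2.le⟩
  set R : ℝ := x / 8 with hR
  have hR0 : 0 < R := by positivity
  have hRq : 2 * R < Real.log q := by rw [← hx, hR]; linarith
  set c₀ : ℝ := 8 * E * L / (f ^ 2 * x) with hc₀
  have hc₀0 : 0 < c₀ := by positivity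
  have hlogK : Real.log (Fintype.card K) ≤ E := by
    rw [Real.log_le_iff_le_exp]
    · exact hK
    · exact_mod_cast (Fintype.card_pos : 0 < Fintype.card K)
  obtain ⟨B, hBX, hB1, hB2⟩ := exists_good K X (c := c₀) hR0 hRq hE0 hlogK rfl
  have hBcard : (B.card : ℝ) ≤ f ^ 2 / 8 * (x / L) := by
    have h1 : c₀ * B.card ≤ c₀ * (f ^ 2 / 8 * (x / L)) := by
      have : c₀ * (f ^ 2 / 8 * (x / L)) = E := by
        rw [hc₀]; field_simp
      rw [this]; exact hB1
    exact le_of_mul_le_mul_left h1 hc₀0
  have hBp : ∀ p ∈ B, p.Prime ∧ p < q ∧ z < (p : ℝ) := by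
    intro p hp
    have := hBX hp
    rw [hX, mem_filter, mem_range] at this
    exact ⟨this.2.1, this.1, this.2.2⟩
  set V : Finset ℕ := X \ B with hV
  have hVp : ∀ p ∈ V, p.Prime ∧ h ≤ Real.log p := fun p hp => hXp p (mem_sdiff.1 hp).1
  -- the number of relations
  set β : ℝ := 32 * d * M / (f ^ 2 * L ^ 2) with hβ
  have hβ0 : 0 < β := by positivity
  have hβ1 : 2 * c₀ / h ≤ β := by
    rw [div_le_iff₀ hh0]
    have h1 : 2 * c₀ = β * (L / 2) := by
      rw [hc₀, hβ, hE]; field_simp; ring
    rw [h1]
    exact mul_le_mul_of_nonneg_left k1 hβ0.le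
  have hβ2 : 2 * E / R ≤ β := by
    have h1 : 2 * E / R = 16 * d * M / L ^ 2 := by
      rw [hR, hE]; field_simp; ring
    rw [h1, hβ, div_le_div_iff₀ (by positivity) (by positivity)]
    have h2 : f ^ 2 ≤ 1 := by nlinarith only [hf, hf1]
    have h3 : 0 ≤ 16 * d * M * L ^ 2 := by positivity
    nlinarith only [h2, h3]
  set γ : ℝ := M / (16 * A * L) with hγ
  have hγ0 : 0 < γ := by positivity
  have hcount : ∀ r : ℝ, 0 < r → r ≤ R → lc q K V V r ≤ γ * r := by
    intro r hr0 hrR
    rcases lt_or_ge r h with hrh | hrh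
    · -- no relation
      have h3 : lc q K V V r = 0 := by
        have h4 : RS q K V V r ⊆ {(1, 1)} := by
          intro g hg
          rw [mem_RS (by linarith)] at hg
          obtain ⟨p1, p2⟩ := pf_card hVp (Finset.Subset.refl V) (Finset.Subset.refl V) hg
          have h5 : (g.1 * g.2).primeFactors.card = 0 := by
            by_contra hne
            have h6 : (1 : ℝ) ≤ (g.1 * g.2).primeFactors.card := by
              exact_mod_cast Nat.one_le_iff_ne_zero.2 hne
            have h7 := hg.2.2.2.2.2.2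
            nlinarith only [h6, h7, p2, hrh, hh0]
          rw [card_eq_zero, Nat.primeFactors_eq_empty] at h5
          have hp := Nat.mul_pos hg.1 hg.2.1
          have h6 : g.1 * g.2 = 1 := by omega
          rw [mem_singleton]
          exact Prod.ext (Nat.eq_one_of_mul_eq_one_right h6) (Nat.eq_one_of_mul_eq_one_left h6)
        have h5 : RS q K V V r = {(1, 1)} := by
          apply Finset.Subset.antisymm h4
          rw [singleton_subset_iff]
          exact one_mem hr0.le (by linarith)
        rw [lc, h5, card_singleton, Nat.cast_one, Real.log_one]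
      rw [h3]; positivity
    · have hrr : 1 ≤ R / r := by rw [le_div_iff₀ hr0]; linarith
      obtain ⟨J, hJ1, hJ2⟩ := exists_nat_pow_near hrr (show (1 : ℝ) < 2 by norm_num)
      have hmain := count_le K V hh0 hVp hR0 hRq hE0 hlogK hc₀0.le hB2 hβ1 hβ2 hr0 hrR J hJ1 hJ2
      refine hmain.trans ?_
      rw [mul_comm]
      apply mul_le_mul_of_nonneg_right _ hr0.le
      have hJ : (J : ℝ) * Real.log 2 ≤ L := by
        have h1 : (2 : ℝ) ^ J ≤ x := by
          refine hJ1.trans ?_
          rw [div_le_iff₀ hr0]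
          have h2 : R ≤ x := by rw [hR]; linarith
          have h3 : 1 ≤ r := by linarith
          nlinarith only [h2, h3, hx0]
        have h2 := Real.log_le_log (by positivity) h1
        rwa [Real.log_pow, ← hL] at h2
      have hJ' : (J : ℝ) ≤ 3 / 2 * L := by
        have : (J : ℝ) * (2 / 3) ≤ J * Real.log 2 :=
          mul_le_mul_of_nonneg_left (by linarith) (Nat.cast_nonneg _)
        linarith
      have t1 : Real.log 2 / h ≤ γ / 3 := by
        have h1 : Real.log 2 / h ≤ Real.log 2 / (L / 2) :=
          div_le_div_of_nonneg_left hlog2'.le (by positivity) k1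
        refine h1.trans ?_
        rw [hγ, div_div, div_le_div_iff₀ (by positivity) (by positivity)]
        have h2 : Real.log 2 * (48 * A) ≤ M / 2 := by nlinarith only [hlog2, k2, hA0]
        calc Real.log 2 * (16 * A * L * 3) = Real.log 2 * (48 * A) * L := by ring
          _ ≤ M / 2 * L := mul_le_mul_of_nonneg_right h2 hL0.le
          _ = M * (L / 2) := by ring
      have t2 : 2 * E / R ≤ γ / 3 := by
        have h1 : 2 * E / R = 16 * d * M / L ^ 2 := by
          rw [hR, hE]; field_simp; ring
        rw [h1, hγ, div_div, div_le_div_iff₀ (by positivity) (by positivity)]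
        have h2 : 768 * (d * A) ≤ L := by
          have : f ^ 2 ≤ 1 := by nlinarith only [hf, hf1]
          nlinarith only [this, hdA, hL1, mul_pos hd hA0]
        have h3 : 0 < M * L := by positivity
        calc 16 * d * M * (16 * A * L * 3) = 768 * (d * A) * (M * L) := by ring
          _ ≤ L * (M * L) := mul_le_mul_of_nonneg_right h2 h3.le
          _ = M * L ^ 2 := by ring
      have t3 : J * β / 2 ≤ γ / 3 := by
        have h1 : J * β / 2 ≤ (3 / 2 * L) * β / 2 := by
          apply div_le_div_of_nonneg_right _ (by norm_num)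
          exact mul_le_mul_of_nonneg_right hJ' hβ0.le
        refine h1.trans ?_
        have h2 : (3 / 2 * L) * β / 2 = 24 * d * M / (f ^ 2 * L) := by
          rw [hβ]; field_simp; ring
        rw [h2, hγ, div_div, div_le_div_iff₀ (by positivity) (by positivity)]
        calc 24 * d * M * (16 * A * L * 3) = d * (1152 * A) * (M * L) := by ring
          _ ≤ f ^ 2 * (M * L) := mul_le_mul_of_nonneg_right hdA (by positivity)
          _ = M * (f ^ 2 * L) := by ring
      linarith
  have hθγ : 2 * γ ≤ θ / 2 := by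
    have : 2 * γ = M / (4 * A * L) / 2 := by rw [hγ]; field_simp; ring
    rw [this]
    linarith
  have hθ0 : 0 < θ := lt_of_lt_of_le (by positivity) hθ
  have hws := wsum_le K V hh0 hVp hR0 hRq hγ0.le (by linarith : 2 * γ < θ) hcount
  have hρ : Real.exp (-((θ - 2 * γ) * h)) ≤ 1 / 9 := by
    have h1 : M / (16 * A) ≤ (θ - 2 * γ) * h := by
      have h2 : M / (8 * A * L) ≤ θ - 2 * γ := by
        have : M / (8 * A * L) = M / (4 * A * L) / 2 := by field_simp; ring
        rw [this]; linarith
      calc M / (16 * A) = M / (8 * A * L) * (L / 2) := by field_simp; ring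
        _ ≤ (θ - 2 * γ) * h := mul_le_mul h2 k1 (by positivity) (by linarith)
    have h2 : 4 ≤ M / (16 * A) := by
      rw [le_div_iff₀ (by positivity)]; linarith
    have h3 : Real.exp (-((θ - 2 * γ) * h)) ≤ Real.exp (-4) := by
      rw [Real.exp_le_exp]; linarith
    refine h3.trans ?_
    rw [Real.exp_neg, ← one_div]
    apply one_div_le_one_div_of_le (by norm_num)
    have h5 : (2 : ℝ) ≤ Real.exp 1 := by have := Real.add_one_le_exp (1 : ℝ); linarith
    have h6 : Real.exp 4 = Real.exp 1 ^ 4 := by rw [← Real.exp_nat_mul]; norm_num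
    have h7 : (2 : ℝ) ^ 4 ≤ Real.exp 1 ^ 4 := pow_le_pow_left₀ (by norm_num) h5 4
    norm_num at h7
    linarith
  have hws2 : ∑ g ∈ (RS q K V V R).erase (1, 1), Real.exp (-(θ * sz g)) ≤ 1 / 8 := by
    refine hws.trans ?_
    have hρ0 : 0 < Real.exp (-((θ - 2 * γ) * h)) := Real.exp_pos _
    rw [div_le_iff₀ (by linarith)]
    linarith
  -- the long relations
  have hlong : (Fintype.card K : ℝ) * Real.exp (-(θ * R)) ≤ 1 / 8 := by
    have h1 : E + Real.log 8 ≤ θ * R := by
      have h2 : x * M / (32 * A * L) ≤ θ * R := by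
        calc x * M / (32 * A * L) = M / (4 * A * L) * R := by rw [hR]; field_simp; ring
          _ ≤ θ * R := mul_le_mul_of_nonneg_right hθ hR0.le
      have h3 : E ≤ x * M / (64 * A * L) := by
        rw [hE, ← mul_div_assoc, div_le_div_iff₀ (by positivity) (by positivity)]
        have h4 : 64 * (d * A) ≤ L := by
          have : f ^ 2 ≤ 1 := by nlinarith only [hf, hf1]
          nlinarith only [this, hdA, hL1, mul_pos hd hA0]
        calc d * (x * M) * (64 * A * L) = 64 * (d * A) * (x * M * L) := by ring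
          _ ≤ L * (x * M * L) := mul_le_mul_of_nonneg_right h4 (by positivity)
          _ = x * M * L ^ 2 := by ring
      have h5 : x * M / (32 * A * L) = x * M / (64 * A * L) + x * M / (64 * A * L) := by
        field_simp; ring
      linarith
    calc (Fintype.card K : ℝ) * Real.exp (-(θ * R)) ≤ Real.exp E * Real.exp (-(E + Real.log 8)) := by
          apply mul_le_mul hK _ (Real.exp_pos _).le (Real.exp_pos _).le
          rw [Real.exp_le_exp]; linarith
      _ = 1 / 8 := by
          rw [← Real.exp_add, show E + -(E + Real.log 8) = -Real.log 8 by ring, Real.exp_neg,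
            Real.exp_log (by norm_num), one_div]
  refine ⟨B, hBp, hBcard, fun k => Real.exp (-(θ * R)) + ∑ g ∈ (RS q K V V R).erase (1, 1),
    if (g.1 : ZMod q) = (k : ZMod q) * g.2 then Real.exp (-(θ * sz g)) else 0, ?_, ?_, ?_⟩
  · intro k
    apply add_nonneg (Real.exp_pos _).le
    apply Finset.sum_nonneg
    intro g _
    split_ifs
    · exact (Real.exp_pos _).le
    · exact le_rfl
  · rw [Finset.sum_add_distrib, Finset.sum_const, nsmul_eq_mul, Finset.sum_comm]
    have hcard : (univ.filter (fun k : (ZMod q)ˣ => k ∈ K)).card = Fintype.card K :=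
      (Fintype.card_subtype _).symm
    rw [hcard]
    have h1 : ∀ g ∈ (RS q K V V R).erase (1, 1), ∑ k ∈ univ.filter (fun k : (ZMod q)ˣ => k ∈ K),
        (if (g.1 : ZMod q) = (k : ZMod q) * g.2 then Real.exp (-(θ * sz g)) else 0) ≤
        Real.exp (-(θ * sz g)) := by
      intro g hg
      rw [mem_erase, mem_RS (by linarith)] at hg
      obtain ⟨-, b1, b2, b3, b4, b5, b6, b7⟩ := hg
      have hg2 : (g.2 : ZMod q) ≠ 0 := by
        intro h0
        rw [ZMod.natCast_eq_zero_iff] at h0
        have h1 := Nat.le_of_dvd b2 h0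
        have h2 : Real.log q ≤ sz g := by
          unfold sz
          apply Real.log_le_log (by exact_mod_cast hqp.pos)
          have : q ≤ g.1 * g.2 := h1.trans (Nat.le_mul_of_pos_left _ b1)
          exact_mod_cast this
        linarith
      rw [← Finset.sum_filter, Finset.sum_const, nsmul_eq_mul]
      have h2 : ((univ.filter (fun k : (ZMod q)ˣ => k ∈ K)).filter
          (fun k : (ZMod q)ˣ => (g.1 : ZMod q) = (k : ZMod q) * g.2)).card ≤ 1 := by
        rw [Finset.card_le_one]
        intro k hk k' hk'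
        rw [mem_filter] at hk hk'
        apply Units.ext
        exact mul_right_cancel₀ hg2 (hk.2.symm.trans hk'.2)
      calc _ ≤ (1 : ℝ) * Real.exp (-(θ * sz g)) := by
            apply mul_le_mul_of_nonneg_right _ (Real.exp_pos _).le
            exact_mod_cast h2
        _ = _ := one_mul _
    have h2 := Finset.sum_le_sum h1
    linarith
  · intro k hk s t hs ht hst hne hcl hsq htq hpr
    simp only
    rcases le_or_gt (sz (s, t)) R with hle | hgt
    · have hmem : ((s, t) : ℕ × ℕ) ∈ (RS q K V V R).erase (1, 1) := by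
        rw [mem_erase, mem_RS (by linarith)]
        have hp : ∀ p : ℕ, p.Prime → p ∣ s * t → p < q → p ∈ V := by
          intro p hp1 hp2 hp3
          obtain ⟨c1, c2⟩ := hpr p hp1 hp2
          rw [hV, mem_sdiff, hX, mem_filter, mem_range]
          exact ⟨⟨hp3, hp1, c2⟩, c1⟩
        refine ⟨fun h0 => hne ?_, hs, ht, hst, ?_, ?_, ⟨k, hk, hcl⟩, hle⟩
        · rw [Prod.mk.injEq] at h0; exact h0
        · intro p hp'
          have h1 := Nat.prime_of_mem_primeFactors hp'
          have h2 := Nat.dvd_of_mem_primeFactors hp'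
          exact hp p h1 (h2.mul_right t) (lt_of_le_of_lt (Nat.le_of_dvd hs h2) hsq)
        · intro p hp'
          have h1 := Nat.prime_of_mem_primeFactors hp'
          have h2 := Nat.dvd_of_mem_primeFactors hp'
          exact hp p h1 (h2.mul_left s) (lt_of_le_of_lt (Nat.le_of_dvd ht h2) htq)
      have h1 := Finset.single_le_sum (f := fun g : ℕ × ℕ =>
        if (g.1 : ZMod q) = (k : ZMod q) * g.2 then Real.exp (-(θ * sz g)) else 0)
        (fun g _ => by
          split_ifs
          · exact (Real.exp_pos _).le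
          · exact le_rfl) hmem
      simp only [hcl, if_true] at h1
      have h2 : 0 < Real.exp (-(θ * R)) := Real.exp_pos _
      linarith
    · have h1 : Real.exp (-(θ * sz (s, t))) ≤ Real.exp (-(θ * R)) := by
        rw [Real.exp_le_exp]
        nlinarith only [hgt, hθ0]
      have h2 : 0 ≤ ∑ g ∈ (RS q K V V R).erase (1, 1),
          (if (g.1 : ZMod q) = (k : ZMod q) * g.2 then Real.exp (-(θ * sz g)) else 0) := by
        apply Finset.sum_nonneg
        intro g _
        split_ifs
        · exact (Real.exp_pos _).le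
        · exact le_rfl
      linarith

end Pool.Agent.V8H35.EC
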