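import Pool.Agent.V8H35.EC.R45

/-!
# Large central values in every coset of a subgroup of index at most
`exp (d log q logloglog q / (loglog q)^2)`
-/

set_option autoImplicit false

namespace Pool.Agent.V8H35.EC

open Finset
open scoped Classical
open Pool.Agent.R311.RES

theorem core' (t₀ e f : ℝ) (ht0 : 0 < t₀) (ht1 : t₀ ≤ 1 / 3) (het : 5 * e ≤ t₀) (he : 0 < e)
    (he1 : e < 1 / 20) (hf : 0 < f) (hf1 : f ≤ 1) :
    ∃ d : ℝ, 0 < d ∧ ∃ X0 : ℝ, ∀ (q : ℕ) [Fact q.Prime], X0 ≤ Real.log q →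
      4 ≤ f * Real.sqrt (Real.log q / Real.log (Real.log q)) ∧
      ∀ (H : Subgroup (DirichletCharacter ℂ q)) (χ₀ : DirichletCharacter ℂ q) (V : ℝ)
      (Aset : Finset H),
      (Fintype.card (ann H) : ℝ) ≤ Real.exp (d * (Real.log q *
        Real.log (Real.log (Real.log q)) / Real.log (Real.log q) ^ 2)) → 0 ≤ V →
      (∀ ψ : H, ψ ∉ Aset →
        ‖DirichletCharacter.LFunction (χ₀ * (ψ : DirichletCharacter ℂ q)) (1 / 2)‖ ≤ V) →
      (Aset.card : ℝ) ≤ Real.exp ((1 - 2 * t₀) * Real.log q) →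
      Real.exp ((Real.sqrt t₀ - 5 / Real.sqrt t₀ * e) * Real.sqrt (Real.log q / Real.log (Real.log q))) ≤
        10 * (V * Real.exp (f * Real.sqrt (Real.log q / Real.log (Real.log q)))) := by
  obtain ⟨A, Y, hA, hY1, hY⟩ := prime_sum e he (by linarith)
  have hA0 : 0 < A := by linarith
  set d : ℝ := f ^ 2 / (1152 * A) with hd
  have hd0 : 0 < d := by positivity
  have hdA : d * (1152 * A) ≤ f ^ 2 := by rw [hd]; field_simp; exact le_rfl
  have hθp : 0 < t₀ - 3 * e := by linarith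
  obtain ⟨X0, hX0⟩ := Filter.eventually_atTop.1
    ((factsC e A 1 f Y he he1 hA one_pos hf).and ((factsD e A d f he hA hd0 hf).and
      ((sq_small (4 * A ^ 2 * (A + 1) / (e ^ 2 * (t₀ - 3 * e)))).and
        (Filter.eventually_ge_atTop (4 / t₀)))))
  refine ⟨d, hd0, X0, fun q _ hq => ?_⟩
  obtain ⟨F, FDx, g9', g19'⟩ := hX0 (Real.log q) hq
  set x : ℝ := Real.log q with hx
  refine ⟨F.g16, fun H χ₀ V Aset hκ hV0 hV hAset => ?_⟩
  obtain ⟨g1, g2, g5, g6, g7, g8, g9, g10, g11, g12, g14, g15, g16, g17, g18⟩ := F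
  obtain ⟨k1, k2, k3, k4, k5, k6, k7, k8⟩ := FDx
  have F := (hX0 x hq).1
  have g19 : 4 ≤ t₀ * x := by rw [div_le_iff₀ ht0] at g19'; linarith
  have g9t : (A * (2 * Real.log x)) ^ 2 * (A + 1) ≤ e ^ 2 * ((t₀ - 3 * e) * x) := by
    have h0 : 0 < e ^ 2 * (t₀ - 3 * e) := by positivity
    rw [div_mul_eq_mul_div, div_le_iff₀ h0] at g9'
    nlinarith only [g9']
  have hqp : q.Prime := Fact.out
  have hq0 : (0 : ℝ) < q := by exact_mod_cast hqp.pos
  have hqx : (q : ℝ) = Real.exp x := (Real.exp_log hq0).symm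
  set L := Real.log x with hL
  set M := Real.log L with hM
  have hx0 : 0 < x := by linarith
  have hL20 : 400 ≤ L := by
    have : 400 ≤ 20 / e := by rw [le_div_iff₀ he]; linarith
    linarith
  have hL0 : 0 < L := by linarith
  have hM0 : 0 < M := by linarith
  set y := x * L with hy
  have hy0 : 0 < y := by positivity
  set ly := Real.log y with hly
  have hlyE : ly = L + M := by rw [hly, hy, Real.log_mul hx0.ne' hL0.ne']
  have hlyL : L ≤ ly := by linarith
  have hly0 : 0 < ly := by linarith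
  have hly3 : ly ≤ 2 * L := by nlinarith only [hlyE, g2, he1, hL0]
  obtain ⟨P0, hP0, hP0S⟩ := hY y g6
  have hP0p : ∀ p ∈ P0, p.Prime := fun p hp => (hP0 p hp).1
  set W := Real.sqrt (x * M / L) with hW
  have hW2 : W ^ 2 = x * M / L := Real.sq_sqrt (by positivity)
  have hW0 : 0 ≤ W := Real.sqrt_nonneg _
  set G := Real.sqrt (x / L) with hG
  have hG2 : G ^ 2 = x / L := Real.sq_sqrt (by positivity)
  have hG0 : 0 < G := Real.sqrt_pos.2 (by positivity)
  -- lambda
  set lam : ℝ := Real.log (ly / 2) with hlam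
  have hlamM : M / 2 ≤ lam := by
    have h1 : Real.log (L / 2) ≤ lam := Real.log_le_log (by positivity) (by linarith)
    rw [Real.log_div hL0.ne' (by norm_num)] at h1
    have h2 := Real.log_two_lt_d9
    linarith
  have hlam0 : 0 < lam := by linarith
  have hlam2 : 2 * lam ≤ ly := by
    have := Real.log_le_sub_one_of_pos (show 0 < ly / 2 by positivity)
    linarith
  have helam : Real.exp (-lam) = 2 / ly := by
    rw [Real.exp_neg, hlam, Real.exp_log (by positivity), inv_div]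
  set Lam : ℝ := A * ly / lam with hLam
  have hLam2 : 2 ≤ Lam := by
    rw [hLam, le_div_iff₀ hlam0]
    nlinarith only [hlam2, hA, hly0]
  have hLamlam : ∀ p ∈ P0, Real.log p ≤ Lam * lam := by
    intro p hp
    rw [hLam, div_mul_cancel₀ _ hlam0.ne']
    exact (hP0 p hp).2.2
  have hLamu : Lam ≤ 4 * A * L / M := by
    rw [hLam, div_le_div_iff₀ hlam0 hM0]
    have h1 : A * ly * M ≤ A * (2 * L) * M :=
      mul_le_mul_of_nonneg_right (mul_le_mul_of_nonneg_left hly3 hA0.le) hM0.le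
    have h2 : A * (2 * L) * M ≤ A * (2 * L) * (2 * lam) :=
      mul_le_mul_of_nonneg_left (by linarith) (by positivity)
    calc A * ly * M ≤ A * (2 * L) * (2 * lam) := h1.trans h2
      _ = _ := by ring
  -- the subgroup
  have hK1 : 1 ≤ Fintype.card (ann H) := Fintype.card_pos
  set κ : ℝ := (Fintype.card (ann H) : ℝ) with hκd
  have hκ1 : 1 ≤ κ := by rw [hκd]; exact_mod_cast hK1
  set E : ℝ := d * (x * M / L ^ 2) with hE
  have hθ : M / (4 * A * L) ≤ 1 / Lam := by
    have hLam0 : 0 < Lam := by linarith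
    rw [div_le_div_iff₀ (by positivity) hLam0, one_mul]
    rw [le_div_iff₀ hM0] at hLamu
    linarith
  obtain ⟨B1, hB1p, hB1c, cf, hcf0, hcfs, hcf⟩ := exists_B' (ann H) hA hd0 hf hf1 hx hL hM hE hdA
    k1 k2 k3 k4 k7 k8 hκ hθ
  set z : ℝ := f ^ 2 / 16 * (x / L) with hz
  have hz0 : 0 < z := by positivity
  set B0 : Finset ℕ := (Icc 1 ⌊z⌋₊).filter Nat.Prime with hB0
  have hB0c : (B0.card : ℝ) ≤ z := by
    have h1 : B0.card ≤ ⌊z⌋₊ := by
      refine (card_le_card (filter_subset _ _)).trans ?_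
      rw [Nat.card_Icc]; omega
    exact (show (B0.card : ℝ) ≤ (⌊z⌋₊ : ℝ) by exact_mod_cast h1).trans (Nat.floor_le hz0.le)
  have hzx : z ≤ x / L := by
    rw [hz]
    have h1 : f ^ 2 / 16 ≤ 1 := by nlinarith only [hf, hf1]
    have h2 : 0 ≤ x / L := by positivity
    calc f ^ 2 / 16 * (x / L) ≤ 1 * (x / L) := mul_le_mul_of_nonneg_right h1 h2
      _ = _ := one_mul _
  have hxLx : x / L ≤ x := div_le_self hx0.le (by linarith)
  set B : Finset ℕ := B0 ∪ B1 with hB
  have hBp : ∀ p ∈ B, p.Prime := by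
    intro p hp
    rw [hB, mem_union] at hp
    rcases hp with hp | hp
    · rw [hB0, mem_filter] at hp; exact hp.2
    · exact (hB1p p hp).1
  have hBlt : ∀ p ∈ B, p < q := by
    intro p hp
    rw [hB, mem_union] at hp
    rcases hp with hp | hp
    · rw [hB0, mem_filter, mem_Icc] at hp
      have h1 : (p : ℝ) ≤ z := (show (p : ℝ) ≤ (⌊z⌋₊ : ℝ) by exact_mod_cast hp.1.2).trans
        (Nat.floor_le hz0.le)
      have h2 : x < Real.exp x := by have := Real.add_one_le_exp x; linarith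
      have h3 : (p : ℝ) < q := by rw [hqx]; linarith
      exact_mod_cast h3
    · exact (hB1p p hp).2.1
  have hnB : ∀ p : ℕ, p.Prime → p ∉ B → p ∉ B1 ∧ z < (p : ℝ) := by
    intro p hp hpB
    rw [hB, mem_union, not_or] at hpB
    refine ⟨hpB.2, ?_⟩
    by_contra hcon
    push Not at hcon
    apply hpB.1
    rw [hB0, mem_filter, mem_Icc]
    exact ⟨⟨hp.one_lt.le, Nat.le_floor hcon⟩, hp⟩
  have hBz2 : ((B.filter (fun p : ℕ => z < (p : ℝ))).card : ℝ) ≤ f ^ 2 / 8 * (x / L) := by
    refine le_trans ?_ hB1c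
    have h1 : B.filter (fun p : ℕ => z < (p : ℝ)) ⊆ B1 := by
      intro p hp
      rw [mem_filter, hB, mem_union] at hp
      rcases hp.1 with h2 | h2
      · exfalso
        rw [hB0, mem_filter, mem_Icc] at h2
        have h3 : (p : ℝ) ≤ z := (show (p : ℝ) ≤ (⌊z⌋₊ : ℝ) by exact_mod_cast h2.1.2).trans
          (Nat.floor_le hz0.le)
        linarith only [h3, hp.2]
      · exact h2
    exact_mod_cast card_le_card h1
  have hf2 : f ^ 2 ≤ 1 := by nlinarith only [hf, hf1]
  have heL : 20 ≤ e * L := by rw [div_le_iff₀ he] at g12; linarith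
  have hBcard : (B.card : ℝ) ≤ e / 20 * x := by
    have h1 : (B.card : ℝ) ≤ (B0.card : ℝ) + B1.card := by
      rw [hB]; exact_mod_cast card_union_le B0 B1
    have h2 : x / L ≤ e / 20 * x := by
      rw [div_le_iff₀ hL0]
      nlinarith only [heL, hx0]
    have h3 : 0 ≤ x / L := by positivity
    have h4 : f ^ 2 / 16 * (x / L) ≤ 1 / 16 * (x / L) := mul_le_mul_of_nonneg_right (by linarith) h3
    have h5 : f ^ 2 / 8 * (x / L) ≤ 1 / 8 * (x / L) := mul_le_mul_of_nonneg_right (by linarith) h3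
    linarith
  have hexp1 : (2 : ℝ) ≤ Real.exp 1 := by have := Real.add_one_le_exp (1 : ℝ); linarith
  have hB3 : (2 : ℝ) ^ B.card ≤ Real.exp (B.card : ℝ) := by
    calc (2 : ℝ) ^ B.card ≤ Real.exp 1 ^ B.card := pow_le_pow_left₀ (by norm_num) hexp1 _
      _ = Real.exp (B.card : ℝ) := by rw [← Real.exp_nat_mul, mul_one]
  have hBprod := prod_B_le B hBp z (f ^ 2 / 8 * (x / L)) hz0 hBz2
  have hsz : Real.sqrt z = f / 4 * G := by
    rw [hz, Real.sqrt_mul (by positivity), ← hG]
    congr 1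
    rw [show f ^ 2 / 16 = (f / 4) ^ 2 by ring, Real.sqrt_sq (by positivity)]
  have hprodu : ∏ p ∈ B, (1 + (p : ℝ) ^ (-(1 / 2 : ℝ))) ≤ Real.exp (f * G) := by
    refine hBprod.trans (Real.exp_le_exp.2 ?_)
    rw [hsz, ← hG2]
    have h1 : f ^ 2 / 8 * G ^ 2 / (f / 4 * G) = (f / 2) * G := by
      field_simp; ring
    rw [h1]
    apply le_of_eq
    ring
  -- the resonator
  set P := P0 \ B with hP
  have hPP : P ⊆ P0 := sdiff_subset
  have hS : (1 - 2 * e) / ly ≤ ∑ p ∈ P, 1 / ((p : ℝ) * Real.log p) := by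
    have h1 := Finset.sum_sdiff (s₁ := P0 ∩ B) (s₂ := P0) (f := fun p : ℕ => 1 / ((p : ℝ) * Real.log p))
      inter_subset_left
    rw [sdiff_inter_self_left, ← hP] at h1
    have h2 : ∑ p ∈ P0 ∩ B, 1 / ((p : ℝ) * Real.log p) ≤ e / ly := by
      have h3 : ∀ p ∈ P0 ∩ B, 1 / ((p : ℝ) * Real.log p) ≤ 1 / (y * ly) := by
        intro p hp
        rw [mem_inter] at hp
        have h4 := (hP0 p hp.1).2.1
        apply one_div_le_one_div_of_le (by positivity)
        exact mul_le_mul h4.le (Real.log_le_log hy0 h4.le) hly0.le (by linarith)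
      refine (Finset.sum_le_card_nsmul _ _ _ h3).trans ?_
      rw [nsmul_eq_mul]
      have h5 : ((P0 ∩ B).card : ℝ) ≤ f ^ 2 / 8 * (x / L) := by
        refine le_trans ?_ hBz2
        have h6 : P0 ∩ B ⊆ B.filter (fun p : ℕ => z < (p : ℝ)) := by
          intro p hp
          rw [mem_inter] at hp
          rw [mem_filter]
          refine ⟨hp.2, lt_of_le_of_lt ?_ (hP0 p hp.1).2.1⟩
          rw [hz, hy]
          have h7 : x / L ≤ x * L := by
            rw [div_le_iff₀ hL0]
            nlinarith only [hx0, hL20, mul_pos hx0 hL0]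
          have h8 : f ^ 2 / 16 ≤ 1 := by nlinarith only [hf, hf1]
          have h9 : 0 ≤ x / L := by positivity
          calc f ^ 2 / 16 * (x / L) ≤ 1 * (x / L) := mul_le_mul_of_nonneg_right h8 h9
            _ ≤ x * L := by rw [one_mul]; exact h7
        exact_mod_cast card_le_card h6
      have h6 : ((P0 ∩ B).card : ℝ) ≤ e * y := by
        refine h5.trans ?_
        have h7 : x / L ≤ e * (x * L) := by
          rw [div_le_iff₀ hL0]
          have h8 : 1 ≤ e * L * L := by nlinarith only [heL, hL20]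
          calc x = x * 1 := (mul_one x).symm
            _ ≤ x * (e * L * L) := mul_le_mul_of_nonneg_left h8 hx0.le
            _ = _ := by ring
        have h9 : 0 ≤ x / L := by positivity
        have h10 : f ^ 2 / 8 * (x / L) ≤ 1 * (x / L) := mul_le_mul_of_nonneg_right (by linarith) h9
        rw [hy]
        linarith
      calc ((P0 ∩ B).card : ℝ) * (1 / (y * ly)) ≤ e * y * (1 / (y * ly)) :=
            mul_le_mul_of_nonneg_right h6 (by positivity)
        _ = e / ly := by field_simp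
    have h7 : (1 - 2 * e) / ly = (1 - e) / ly - e / ly := by ring
    rw [h7]
    linarith
  obtain ⟨r, hr0, hr1, hr2⟩ := res_part' t₀ e A 1 f Y x F he he1 hA ht0 ht1 het g9t g19 P
    (fun p hp => hP0 p (hPP hp)) hS
  set N : ℕ := ⌊Real.exp ((t₀ - e) * x)⌋₊ with hN
  have hNu0 : (N : ℝ) ≤ Real.exp ((t₀ - e) * x) := Nat.floor_le (Real.exp_pos _).le
  have hNu : (N : ℝ) ≤ Real.exp ((1 / 3 - e) * x) := hNu0.trans (by
    rw [Real.exp_le_exp]
    exact mul_le_mul_of_nonneg_right (by linarith) hx0.le)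
  have hN1 : 1 ≤ N := by
    apply Nat.le_floor
    rw [Nat.cast_one]
    apply Real.one_le_exp
    apply mul_nonneg _ hx0.le
    linarith
  set A0 : ℕ := ⌈Real.exp (2 / 3 * x)⌉₊ with hA0d
  have hA0l : Real.exp (2 / 3 * x) ≤ (A0 : ℝ) := Nat.le_ceil _
  have hA0u : (A0 : ℝ) ≤ 2 * Real.exp (2 / 3 * x) := by
    have h1 := Nat.ceil_lt_add_one (Real.exp_pos (2 / 3 * x)).le
    rw [← hA0d] at h1
    have h2 : 1 ≤ Real.exp (2 / 3 * x) := Real.one_le_exp (by positivity)
    linarith
  have hA00 : 0 < A0 := by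
    have : (0 : ℝ) < A0 := lt_of_lt_of_le (Real.exp_pos _) hA0l
    exact_mod_cast this
  set U : ℕ := (q - 1) / N with hU
  have hUN : U * N < q := by
    have h1 := Nat.div_mul_le_self (q - 1) N
    rw [← hU] at h1
    have := hqp.pos
    omega
  have hNN : N * N ≤ q - 1 := by
    have h1 : (N : ℝ) * N ≤ Real.exp ((1 / 3 - e) * x) * Real.exp ((1 / 3 - e) * x) :=
      mul_le_mul hNu hNu (Nat.cast_nonneg _) (Real.exp_pos _).le
    rw [← Real.exp_add] at h1
    have h2 : Real.exp ((1 / 3 - e) * x + (1 / 3 - e) * x) ≤ Real.exp (2 / 3 * x) := by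
      rw [Real.exp_le_exp]; nlinarith only [hx0, he]
    have h3 : Real.exp (2 / 3 * x) * 2 ≤ Real.exp x := by
      rw [show x = 2 / 3 * x + 1 / 3 * x by ring, Real.exp_add]
      rw [show 2 / 3 * (2 / 3 * x + 1 / 3 * x) = 2 / 3 * x by ring]
      apply mul_le_mul_of_nonneg_left _ (Real.exp_pos _).le
      have := Real.add_one_le_exp (1 / 3 * x)
      linarith
    have h4 : 1 ≤ Real.exp (2 / 3 * x) := Real.one_le_exp (by positivity)
    have h5 : ((N * N : ℕ) : ℝ) + 1 ≤ (q : ℝ) := by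
      push_cast
      rw [hqx]; linarith
    have h6 : N * N + 1 ≤ q := by exact_mod_cast h5
    omega
  have hNU : N ≤ U := by rw [hU, Nat.le_div_iff_mul_le hN1]; exact hNN
  have hUN2 : q ≤ 2 * U * N := by
    have h1 : q - 1 < (U + 1) * N := by
      rw [hU]
      have := Nat.lt_div_mul_add (a := q - 1) (b := N) hN1
      calc q - 1 < (q - 1) / N * N + N := this
        _ = _ := by ring
    have h2 : 1 ≤ U := hN1.trans hNU
    have h3 : (U + 1) * N ≤ 2 * U * N := Nat.mul_le_mul_right _ (by omega)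
    omega
  -- number of prime factors
  set Lf : ℕ := ⌊x / ly⌋₊ with hLf
  have hLfc : ∀ u : ℕ, 0 < u → u ≤ A0 * N → (P.filter (fun p => p ∣ u)).card ≤ Lf := by
    intro u hu huA
    apply Nat.le_floor
    rw [le_div_iff₀ hly0]
    have h1 := sum_log_le (P.filter (fun p => p ∣ u))
      (fun p hp => hP0p p (hPP (mem_of_mem_filter p hp))) hu (fun p hp => (mem_filter.1 hp).2)
    have h2 : ∀ p ∈ P.filter (fun p => p ∣ u), ly ≤ Real.log p := by
      intro p hp
      exact Real.log_le_log hy0 (hP0 p (hPP (mem_of_mem_filter p hp))).2.1.le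
    have h3 := Finset.card_nsmul_le_sum _ _ _ h2
    rw [nsmul_eq_mul] at h3
    have h4 : Real.log u ≤ x := by
      have h5 : (u : ℝ) ≤ 2 * Real.exp ((1 - e) * x) := by
        have h6 : (u : ℝ) ≤ ((A0 * N : ℕ) : ℝ) := by exact_mod_cast huA
        refine h6.trans ?_
        push_cast
        calc (A0 : ℝ) * N ≤ (2 * Real.exp (2 / 3 * x)) * Real.exp ((1 / 3 - e) * x) :=
              mul_le_mul hA0u hNu (Nat.cast_nonneg _) (by positivity)
          _ = 2 * Real.exp ((1 - e) * x) := by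
              rw [mul_assoc, ← Real.exp_add]; congr 2; ring
      have h7 := Real.log_le_log (by exact_mod_cast hu) h5
      rw [Real.log_mul (by norm_num) (Real.exp_pos _).ne', Real.log_exp] at h7
      have h8 := Real.log_two_lt_d9
      linarith
    linarith
  have hLf2 : (2 : ℝ) ^ Lf ≤ Real.exp (x / ly) := by
    have h1 : (Lf : ℝ) ≤ x / ly := Nat.floor_le (by positivity)
    have h2 : (2 : ℝ) ≤ Real.exp 1 := by have := Real.add_one_le_exp (1 : ℝ); linarith
    calc (2 : ℝ) ^ Lf ≤ Real.exp 1 ^ Lf := pow_le_pow_left₀ (by norm_num) h2 _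
      _ = Real.exp Lf := by rw [← Real.exp_nat_mul, mul_one]
      _ ≤ _ := Real.exp_le_exp.2 h1
  have hLf3 : Real.exp (x / ly) ≤ Real.exp (e / 20 * x) := by
    rw [Real.exp_le_exp, div_le_iff₀ hly0]
    have h1 : 20 ≤ e * L := by rw [div_le_iff₀ he] at g12; linarith
    have h2 : 20 ≤ e * ly := h1.trans (mul_le_mul_of_nonneg_left hlyL he.le)
    nlinarith only [h2, hx0]
  have hκe : κ ≤ Real.exp (e / 20 * x) := hκ.trans (Real.exp_le_exp.2 k5)
  have hB2e : (2 : ℝ) ^ B.card ≤ Real.exp (e / 20 * x) := hB3.trans (Real.exp_le_exp.2 hBcard)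
  have herr := err_terms (κ := κ) (bb2 := (2 : ℝ) ^ B.card) (LL := Real.exp (x / ly)) (N := N)
    (A0 := A0) (q := q) (L := Lf) he he1 g18 hqx hκe hB2e (by positivity) hNu hN1
    hA0l hA0u hLf2 hLf3 g14
  have hBP : ∀ p ∈ B, p.Prime ∧ p ∉ P := by
    intro p hp
    refine ⟨hBp p hp, ?_⟩
    rw [hP, mem_sdiff]
    exact fun h => h.2 hp
  have hNq : N < q := by
    refine lt_of_le_of_lt ?_ hUN
    exact Nat.le_mul_of_pos_left _ (hN1.trans hNU)
  have hUq : U < q := by
    refine lt_of_le_of_lt ?_ hUN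
    exact Nat.le_mul_of_pos_right _ hN1
  have hHc : ∀ k ∈ ann H, ∀ s t : ℕ, 0 < s → 0 < t → s ≤ U → t ≤ N → Nat.Coprime s t →
      ¬ (s = 1 ∧ t = 1) → (s : ZMod q) = (k : ZMod q) * t → (∀ p ∈ B, ¬ p ∣ s) →
      t.primeFactors ⊆ P → ms t.primeFactors = t →
      ws r t.primeFactors * gs r P s ≤ cf k := by
    intro k hk s t hs ht hsU htN hst hne hcl hsB htP htsq
    have hg := gs_le r hr0 P P0 hPP hP0p lam (by
      intro p hp
      have h1 := (hP0 p hp).2.1
      have h2 := (hr1 p h1).2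
      rw [helam]
      have h3 : ly ≤ Real.sqrt p := g5.trans (Real.sqrt_le_sqrt h1.le)
      have h4 : 1 ≤ Real.sqrt p / ly := by rw [le_div_iff₀ hly0]; linarith
      have h5 : Real.sqrt p * (2 / ly) = 2 * (Real.sqrt p / ly) := by ring
      rw [h5]; linarith) hs
    have hw := ws_le r hr0 P0 lam (by
      intro p hp
      have h1 := (hr1 p (hP0 p hp).2.1).1
      rw [helam]
      refine h1.trans (div_le_div_of_nonneg_right (by norm_num) hly0.le)) ht (htP.trans hPP) hP0p htsq
    refine le_trans ?_ (hcf k hk s t hs ht hst hne hcl (by omega) (by omega) (fun p hp hpd => ?_))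
    · have hlc := log_le_cost P0 hP0p lam Lam hLam2 hLamlam (Nat.mul_pos hs ht)
      calc ws r t.primeFactors * gs r P s ≤ Real.exp (-cost P0 lam t) * Real.exp (-cost P0 lam s) :=
            mul_le_mul hw hg (gs_nonneg hr0 P s) (Real.exp_pos _).le
        _ = Real.exp (-cost P0 lam (s * t)) := by
            rw [← Real.exp_add, cost_mul P0 hP0p lam hs ht hst]; congr 1; ring
        _ ≤ _ := by
            rw [Real.exp_le_exp, neg_le_neg_iff, one_div, inv_mul_le_iff₀ (by linarith)]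
            exact hlc
    · apply hnB p hp
      intro hpB
      rcases (hp.dvd_mul).1 hpd with h1 | h1
      · exact hsB p hpB h1
      · have h2 := htP (Nat.mem_primeFactors.2 ⟨hp, h1, ht.ne'⟩)
        exact (hBP p hpB).2 h2
  have hfin := coset_finite' H χ₀ B P (fun p hp => hP0p p (hPP hp)) hBP
    (fun p hp => (hBlt p hp).ne) N U A0 Lf hN1 hA00 hUN hUN2 hNU r hr0
    (fun p hp => by
      refine (hr1 p (hP0 p (hPP hp)).2.1).1.trans ?_
      rw [div_le_one hly0]; linarith) cf hcf0 hcfs hHc hLfc V hV0 Aset hV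
  -- the term with the mean square
  have hmean : N * Real.sqrt (Aset.card * ((q - 1) * (2 * (1 + Real.log q) + 32 * 4 ^ B.card))) /
        (Fintype.card H : ℝ) ≤ 1 / 8 := by
    have hq1 : (2 : ℝ) ≤ q := by exact_mod_cast hqp.two_le
    have hcH : (0 : ℝ) < Fintype.card H := by
      have : 0 < Fintype.card H := Fintype.card_pos
      exact_mod_cast this
    have hcm := card_mul H
    rw [← hκd] at hcm
    have h1 : (q : ℝ) / (2 * κ) ≤ Fintype.card H := by
      rw [div_le_iff₀ (by positivity)]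
      nlinarith only [hcm, hq1]
    set w : ℝ := Real.exp (e / 10 * x) with hw
    have hw34 : 34 ≤ w := by linarith
    have h4B : (4 : ℝ) ^ B.card ≤ w := by
      have h2 : (4 : ℝ) ^ B.card = ((2 : ℝ) ^ B.card) ^ 2 := by
        rw [← pow_mul, mul_comm, pow_mul]; norm_num
      rw [h2, hw]
      calc ((2 : ℝ) ^ B.card) ^ 2 ≤ (Real.exp (e / 20 * x)) ^ 2 :=
            pow_le_pow_left₀ (by positivity) hB2e 2
        _ = Real.exp (e / 10 * x) := by rw [← Real.exp_nat_mul]; congr 1; push_cast; ring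
    have h5 : 2 * (1 + Real.log q) + 32 * 4 ^ B.card ≤ w ^ 2 := by
      rw [← hx]
      nlinarith only [h4B, hw34, k6]
    have h6 : (Aset.card : ℝ) * ((q - 1) * (2 * (1 + Real.log q) + 32 * 4 ^ B.card)) ≤
        (Real.exp ((1 - t₀ + e / 10) * x)) ^ 2 := by
      have h7 : (0 : ℝ) ≤ 2 * (1 + Real.log q) + 32 * 4 ^ B.card := by
        rw [← hx]; positivity
      calc (Aset.card : ℝ) * ((q - 1) * (2 * (1 + Real.log q) + 32 * 4 ^ B.card)) ≤
            Real.exp ((1 - 2 * t₀) * x) * (q * w ^ 2) := by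
            apply mul_le_mul hAset _ (mul_nonneg (by linarith) h7) (Real.exp_pos _).le
            exact mul_le_mul (by linarith) h5 h7 (by linarith)
        _ = (Real.exp ((1 - t₀ + e / 10) * x)) ^ 2 := by
            rw [hqx, hw, ← Real.exp_nat_mul, ← Real.exp_nat_mul, ← Real.exp_add, ← Real.exp_add]
            congr 1; push_cast; ring
    have h7 : Real.sqrt (Aset.card * ((q - 1) * (2 * (1 + Real.log q) + 32 * 4 ^ B.card))) ≤
        Real.exp ((1 - t₀ + e / 10) * x) := by
      rw [Real.sqrt_le_left (Real.exp_pos _).le]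
      exact h6
    have h8 : (N : ℝ) * Real.sqrt (Aset.card * ((q - 1) * (2 * (1 + Real.log q) + 32 * 4 ^ B.card))) ≤
        Real.exp ((t₀ - e) * x) * Real.exp ((1 - t₀ + e / 10) * x) :=
      mul_le_mul hNu0 h7 (Real.sqrt_nonneg _) (Real.exp_pos _).le
    have h9 : (0 : ℝ) < q / (2 * κ) := by positivity
    calc _ ≤ Real.exp ((t₀ - e) * x) * Real.exp ((1 - t₀ + e / 10) * x) / (q / (2 * κ)) :=
          div_le_div₀ (by positivity) h8 h9 h1
      _ = 2 * (κ * (Real.exp ((t₀ - e) * x) * Real.exp ((1 - t₀ + e / 10) * x) * Real.exp (-x))) := by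
          rw [hqx, Real.exp_neg]; field_simp
      _ ≤ 2 * (Real.exp (e / 20 * x) * (Real.exp ((t₀ - e) * x) *
            Real.exp ((1 - t₀ + e / 10) * x) * Real.exp (-x))) := by
          apply mul_le_mul_of_nonneg_left _ (by norm_num)
          exact mul_le_mul_of_nonneg_right hκe (by positivity)
      _ = 2 * Real.exp (-(17 / 20 * e * x)) := by
          rw [← Real.exp_add, ← Real.exp_add, ← Real.exp_add]; congr 2; ring
      _ ≤ 2 * Real.exp (-(e / 2 * x)) := by
          apply mul_le_mul_of_nonneg_left _ (by norm_num)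
          rw [Real.exp_le_exp]
          nlinarith only [mul_pos he hx0]
      _ ≤ 1 / 8 := by
          refine le_trans ?_ g14
          apply mul_le_mul_of_nonneg_right _ (Real.exp_pos _).le
          linarith
  have hE1 : 1 ≤ EN r P N := by
    have h1 : ws r ∅ ^ 2 ≤ EN r P N := by
      apply Finset.single_le_sum (f := fun S => ws r S ^ 2) (fun S _ => sq_nonneg _)
      rw [mem_IN]
      exact ⟨empty_subset _, by simpa [ms] using hN1⟩
    simpa [ws] using h1
  set Prd : ℝ := ∏ p ∈ B, (1 + (p : ℝ) ^ (-(1 / 2 : ℝ))) with hPrd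
  have hVPrd : V * Prd ≤ V * Real.exp (f * G) := mul_le_mul_of_nonneg_left hprodu hV0
  set Γ : ℝ := Real.exp ((Real.sqrt t₀ - 5 / Real.sqrt t₀ * e) * G) with hΓ
  have hΓ1 : 1 ≤ Γ := by
    apply Real.one_le_exp
    apply mul_nonneg _ hG0.le
    have h3 : (0 : ℝ) < Real.sqrt t₀ := Real.sqrt_pos.2 ht0
    rw [sub_nonneg, div_mul_eq_mul_div, div_le_iff₀ h3, ← sq, Real.sq_sqrt ht0.le]
    exact het
  have hE0 : 0 < EN r P N := by linarith
  have hfin2 : 3 / 4 * (EN r P N / 2 * Γ) ≤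
      EN r P N * (5 / 4 * (V * Real.exp (f * G)) + 1 / 8 + 1 / 8) := by
    refine (mul_le_mul_of_nonneg_left hr2 (by norm_num)).trans (hfin.trans ?_)
    apply mul_le_mul_of_nonneg_left _ hE0.le
    apply add_le_add _ herr
    exact add_le_add (mul_le_mul_of_nonneg_left hVPrd (by norm_num)) hmean
  have hfin3 : 3 / 8 * Γ ≤ 5 / 4 * (V * Real.exp (f * G)) + 1 / 8 + 1 / 8 := by
    have h1 : EN r P N * (3 / 8 * Γ) ≤
        EN r P N * (5 / 4 * (V * Real.exp (f * G)) + 1 / 8 + 1 / 8) := by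
      calc EN r P N * (3 / 8 * Γ) = 3 / 4 * (EN r P N / 2 * Γ) := by ring
        _ ≤ _ := hfin2
    exact le_of_mul_le_mul_left h1 hE0
  linarith

end Pool.Agent.V8H35.EC
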